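import Pool.Agent.U605.NullB

/-!
# The orbit closure of `F`: a transitive null system which is not mean equicontinuous
-/

set_option autoImplicit false

open Filter Topology

namespace Pool.Agent.U605.Null

/-- The space of sequences in `[0, 1]`. -/
abbrev Amb : Type := ℕ → Set.Icc (0 : ℝ) 1

noncomputable instance instMetricAmb : MetricSpace Amb := PiCountable.metricSpace

/-- The point `F`. -/
noncomputable def x0 : Amb := fun n => ⟨F n, F_nonneg n, F_le_one n⟩

/-- The shift. -/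
def sh (x : Amb) : Amb := fun n => x (n + 1)

lemma continuous_sh : Continuous sh := continuous_pi fun n => continuous_apply (n + 1)

lemma sh_iter (m : ℕ) (x : Amb) (n : ℕ) : sh^[m] x n = x (n + m) := by
  induction m generalizing x n with
  | zero => rfl
  | succ m ih =>
    rw [Function.iterate_succ_apply, ih]
    unfold sh
    congr 1

/-- The orbit closure. -/
def XX : Set Amb := closure (Set.range fun m : ℕ => sh^[m] x0)

lemma sh_mem {x : Amb} (hx : x ∈ XX) : sh x ∈ XX := by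
  have h1 : Set.MapsTo sh (Set.range fun m : ℕ => sh^[m] x0) (Set.range fun m : ℕ => sh^[m] x0) := by
    rintro _ ⟨m, rfl⟩
    exact ⟨m + 1, by simp only [Function.iterate_succ_apply']⟩
  exact h1.closure continuous_sh hx

/-- The transformation. -/
def T (x : XX) : XX := ⟨sh x.1, sh_mem x.2⟩

lemma continuous_T : Continuous T :=
  (continuous_sh.comp continuous_subtype_val).subtype_mk _

lemma T_iter (m : ℕ) (x : XX) : (T^[m] x).1 = sh^[m] x.1 := by
  induction m generalizing x with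
  | zero => rfl
  | succ m ih => rw [Function.iterate_succ_apply, ih, Function.iterate_succ_apply]; rfl

noncomputable instance instCompactXX : CompactSpace XX :=
  isCompact_iff_compactSpace.1 (isClosed_closure.isCompact)

lemma orbit_mem (m : ℕ) : sh^[m] x0 ∈ XX := subset_closure ⟨m, rfl⟩

/-- The transitive point. -/
noncomputable def pt : XX := ⟨x0, orbit_mem 0⟩

lemma T_iter_pt (m : ℕ) : (T^[m] pt).1 = sh^[m] x0 := T_iter m pt

/-- Every nonempty open set is visited by the orbit of `pt`. -/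
lemma exists_visit {U : Set XX} (hU : IsOpen U) (hne : U.Nonempty) : ∃ m : ℕ, T^[m] pt ∈ U := by
  obtain ⟨V, hV, rfl⟩ := isOpen_induced_iff.1 hU
  obtain ⟨y, hy⟩ := hne
  obtain ⟨z, hz1, m, rfl⟩ := mem_closure_iff.1 y.2 V hV hy
  refine ⟨m, ?_⟩
  show (T^[m] pt).1 ∈ V
  rw [T_iter_pt]; exact hz1

lemma tendsto_pt : Tendsto (fun k => T^[q k] pt) atTop (𝓝 pt) := by
  rw [tendsto_subtype_rng]
  simp only [T_iter_pt]
  rw [tendsto_pi_nhds]
  intro n
  rw [tendsto_subtype_rng]
  have h : ∀ k, ((sh^[q k] x0 n : Set.Icc (0 : ℝ) 1) : ℝ) = F (n + q k) := by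
    intro k; rw [sh_iter]; rfl
  simp only [h]
  exact F_recurrent n

lemma tendsto_q : Tendsto q atTop atTop := by
  apply tendsto_atTop_mono (f := fun k => k)
  · intro k
    induction k with
    | zero => exact Nat.zero_le _
    | succ k ih =>
      have h := q_pos k
      rw [q]
      have h2 : 1 ≤ 2 ^ (k + 2) := Nat.one_le_two_pow
      have h3 : q k ≤ 2 ^ (k + 2) * q k := Nat.le_mul_of_pos_left _ (by omega)
      omega
  · exact tendsto_id

lemma transitive (U V : Set XX) (hU : IsOpen U) (hV : IsOpen V) (hUne : U.Nonempty)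
    (hVne : V.Nonempty) : ∃ n : ℕ, 1 ≤ n ∧ (V ∩ T^[n] ⁻¹' U).Nonempty := by
  obtain ⟨a, ha⟩ := exists_visit hV hVne
  obtain ⟨b, hb⟩ := exists_visit hU hUne
  have h1 : Tendsto (fun k => T^[b] (T^[q k] pt)) atTop (𝓝 (T^[b] pt)) :=
    ((continuous_T.iterate b).tendsto pt).comp tendsto_pt
  have h2 := h1.eventually (hU.mem_nhds hb)
  have h3 := tendsto_q.eventually (eventually_ge_atTop (a + 1))
  obtain ⟨k, hk1, hk2⟩ := (h2.and h3).exists
  refine ⟨b + q k - a, by omega, T^[a] pt, ha, ?_⟩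
  rw [Set.mem_preimage, ← Function.iterate_add_apply, show b + q k - a + a = b + q k by omega,
    Function.iterate_add_apply]
  exact hk1

/-! ### Two fixed points -/

/-- The constant sequences. -/
noncomputable def cst (b : Bool) : Amb := fun _ => ⟨b2r b, b2r_nonneg b, b2r_le_one b⟩

lemma sh_iter_cst (m : ℕ) (b : Bool) : sh^[m] (cst b) = cst b := by
  funext n; rw [sh_iter]; rfl

lemma tendsto_cst (b : Bool) (κ : ℕ → ℕ) (hκ : Tendsto κ atTop atTop)
    (hb : ∀ j, chi (κ j) = b) :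
    Tendsto (fun j => sh^[p (κ j)] x0) atTop (𝓝 (cst b)) := by
  rw [tendsto_pi_nhds]
  intro n
  rw [tendsto_subtype_rng, tendsto_iff_dist_tendsto_zero]
  have h0 : Tendsto (fun j => 2 * ((1 : ℝ) / 2 ^ (κ j + 1))) atTop (𝓝 0) := by
    have := (tendsto_two_pow.comp ((tendsto_add_atTop_nat 1).comp hκ)).const_mul 2
    rwa [mul_zero] at this
  refine squeeze_zero' (Eventually.of_forall fun _ => dist_nonneg) ?_ h0
  have h1 : ∀ᶠ j in atTop, n ≤ κ j := hκ.eventually (eventually_ge_atTop n)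
  filter_upwards [h1] with j hj
  rw [sh_iter]
  have h2 : n < 2 ^ (κ j) := lt_of_le_of_lt hj Nat.lt_two_pow_self
  have h3 := two_pow_le_p (κ j)
  have h4 := F_far (κ j) (n + p (κ j)) (by omega) (by omega)
  rw [hb j] at h4
  exact h4

lemma chi_even (j : ℕ) : chi (2 * j) = false := by
  unfold chi; simp

lemma chi_odd (j : ℕ) : chi (2 * j + 1) = true := by
  unfold chi; simp [Nat.add_mod]

lemma exists_kappa (b : Bool) : ∃ κ : ℕ → ℕ, Tendsto κ atTop atTop ∧ ∀ j, chi (κ j) = b := by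
  cases b
  · refine ⟨fun j => 2 * j, ?_, chi_even⟩
    exact tendsto_atTop_mono (fun j => by show j ≤ 2 * j; omega) tendsto_id
  · refine ⟨fun j => 2 * j + 1, ?_, chi_odd⟩
    exact tendsto_atTop_mono (fun j => by show j ≤ 2 * j + 1; omega) tendsto_id

lemma cst_mem (b : Bool) : cst b ∈ XX := by
  obtain ⟨κ, hκ, hb⟩ := exists_kappa b
  exact mem_closure_of_tendsto (tendsto_cst b κ hκ hb) (Eventually.of_forall fun j => ⟨_, rfl⟩)

/-- The two fixed points. -/
noncomputable def fx (b : Bool) : XX := ⟨cst b, cst_mem b⟩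

lemma T_iter_fx (m : ℕ) (b : Bool) : T^[m] (fx b) = fx b :=
  Subtype.ext (by rw [T_iter]; exact sh_iter_cst m b)

lemma fx_ne : fx false ≠ fx true := by
  intro h
  have h1 := congrArg (fun z : XX => ((z.1 0 : Set.Icc (0 : ℝ) 1) : ℝ)) h
  simp [fx, cst, b2r] at h1

/-- A transitive system with two different fixed points is not mean equicontinuous. -/
lemma not_mean_equi : ¬ (∀ ε : ℝ, 0 < ε → ∃ δ : ℝ, 0 < δ ∧ ∀ x y : XX, dist x y < δ →
        ∀ᶠ n in atTop,
          (∑ i ∈ Finset.range n, dist (T^[i] x) (T^[i] y)) / (n : ℝ) < ε) := by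
  intro hcon
  set r := dist (fx false) (fx true) with hr
  have hrpos : 0 < r := dist_pos.2 fx_ne
  obtain ⟨δ, hδ, hmain⟩ := hcon (r / 4) (by positivity)
  have hvis : ∀ b : Bool, ∃ m : ℕ, dist (T^[m] pt) (fx b) < δ := fun b =>
    exists_visit (U := Metric.ball (fx b) δ) Metric.isOpen_ball ⟨fx b, Metric.mem_ball_self hδ⟩
  -- averages along the orbit of `pt` itself
  have havg : ∀ b : Bool, ∀ᶠ n : ℕ in atTop,
      (∑ i ∈ Finset.range n, dist (T^[i] pt) (fx b)) < r / 2 * n := by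
    intro b
    obtain ⟨m, hm⟩ := hvis b
    have h1 := hmain _ _ hm
    -- diameter bound
    obtain ⟨Dm, hDm⟩ : ∃ Dm : ℝ, ∀ x : XX, dist x (fx b) ≤ Dm := by
      obtain ⟨C, hC⟩ := (Metric.isBounded_iff.1 (isCompact_univ (X := XX)).isBounded)
      exact ⟨C, fun x => hC (Set.mem_univ _) (Set.mem_univ _)⟩
    have h2 : Tendsto (fun n : ℕ => (r / 4) * (n : ℝ)) atTop atTop :=
      (tendsto_natCast_atTop_atTop).const_mul_atTop (by positivity)
    filter_upwards [h1, h2.eventually (eventually_gt_atTop (m * Dm)), eventually_gt_atTop m]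
      with n hn1 hn2 hn3
    have hn0 : (0 : ℝ) < n := by
      have : 0 < n := by omega
      exact_mod_cast this
    rw [div_lt_iff₀ hn0] at hn1
    have h3 : ∑ i ∈ Finset.range n, dist (T^[i] (T^[m] pt)) (T^[i] (fx b)) =
        ∑ i ∈ Finset.range n, dist (T^[m + i] pt) (fx b) := by
      apply Finset.sum_congr rfl
      intro i _
      rw [← Function.iterate_add_apply, T_iter_fx, add_comm]
    rw [h3] at hn1
    have h4 : ∑ i ∈ Finset.range n, dist (T^[i] pt) (fx b) ≤
        ∑ i ∈ Finset.range (m + n), dist (T^[i] pt) (fx b) := by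
      apply Finset.sum_le_sum_of_subset_of_nonneg
      · exact Finset.range_subset_range.2 (by omega)
      · intro i _ _; exact dist_nonneg
    rw [Finset.sum_range_add] at h4
    have h5 : ∑ i ∈ Finset.range m, dist (T^[i] pt) (fx b) ≤ m * Dm := by
      calc _ ≤ ∑ _i ∈ Finset.range m, Dm := Finset.sum_le_sum fun i _ => hDm _
        _ = m * Dm := by simp
    linarith
  obtain ⟨n, ⟨h1, h2⟩, h3⟩ := (((havg false).and (havg true)).and (eventually_gt_atTop 0)).exists
  have hn : (0 : ℝ) < n := by exact_mod_cast h3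
  have h4 : (n : ℝ) * r ≤ ∑ i ∈ Finset.range n, (dist (T^[i] pt) (fx false) +
      dist (T^[i] pt) (fx true)) := by
    calc (n : ℝ) * r = ∑ _i ∈ Finset.range n, r := by simp
      _ ≤ _ := by
        apply Finset.sum_le_sum
        intro i _
        rw [hr]
        exact dist_triangle_left _ _ _
  rw [Finset.sum_add_distrib] at h4
  linarith

/-! ### Nullness -/

lemma coord_of_dist {ε : ℝ} (hε : 0 < ε) : ∃ (L : ℕ) (η : ℝ), 0 < L ∧ 0 < η ∧ ∀ x y : Amb,
    ε ≤ dist x y → ∃ l < L, η ≤ |(x l : ℝ) - (y l : ℝ)| := by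
  have hs : Summable (fun i : ℕ => ((2 : ℝ)⁻¹) ^ i) := by
    have := summable_geometric_two
    simpa [one_div] using this
  have ht : Tendsto (fun L : ℕ => ∑' i, ((2 : ℝ)⁻¹) ^ (i + L)) atTop (𝓝 0) :=
    tendsto_sum_nat_add (fun i : ℕ => ((2 : ℝ)⁻¹) ^ i)
  obtain ⟨L, hL1, hL2⟩ := ((ht.eventually (gt_mem_nhds (half_pos hε))).and
    (eventually_gt_atTop 0)).exists
  have hLr : (0 : ℝ) < L := by exact_mod_cast hL2
  refine ⟨L, ε / (2 * L), hL2, by positivity, fun x y hxy => ?_⟩
  by_contra hcon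
  push Not at hcon
  have h1 : dist x y = ∑' i, min (2⁻¹ ^ Encodable.encode i) (dist (x i) (y i)) := rfl
  have hsum : Summable fun i : ℕ ↦ min ((2 : ℝ)⁻¹ ^ Encodable.encode i) (dist (x i) (y i)) :=
    PiCountable.dist_summable x y
  rw [h1, ← hsum.sum_add_tsum_nat_add L] at hxy
  have h2 : ∑ i ∈ Finset.range L, min ((2 : ℝ)⁻¹ ^ Encodable.encode i) (dist (x i) (y i)) ≤
      ε / 2 := by
    calc _ ≤ ∑ _i ∈ Finset.range L, ε / (2 * L) := by
          apply Finset.sum_le_sum
          intro i hi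
          refine (min_le_right _ _).trans ?_
          exact (hcon i (Finset.mem_range.1 hi)).le
      _ = ε / 2 := by
          rw [Finset.sum_const, Finset.card_range, nsmul_eq_mul]; field_simp
  have h3 : ∑' i, min ((2 : ℝ)⁻¹ ^ Encodable.encode (i + L)) (dist (x (i + L)) (y (i + L))) ≤
      ∑' i, ((2 : ℝ)⁻¹) ^ (i + L) := by
    refine Summable.tsum_le_tsum (fun i => ?_) ?_ ?_
    · exact min_le_left _ _
    · exact (summable_nat_add_iff L).2 hsum
    · exact (summable_nat_add_iff L).2 hs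
  linarith

lemma asymp (L0 : ℕ) {η δ : ℝ} (hη : 0 < η) (hδ : 0 < δ) :
    ∀ᶠ n : ℕ in atTop, ∀ N : ℕ, 1 ≤ N → N ≤ n * L0 → ∃ L : ℕ,
      (N : ℝ) * (2 * Real.exp (-(L * η ^ 2 / 4))) ≤ 1 / 2 ∧
      2 * (4 * N : ℝ) ^ L ≤ Real.exp (δ * n) := by
  have hA : (0 : ℝ) < 4 / η ^ 2 := by positivity
  -- the function log 2 + (A * y + 1) * y with y = log (4 n L0)
  have h1 : Tendsto (fun n : ℕ => (Real.log 2 + (4 / η ^ 2 * Real.log (4 * (n * L0 : ℕ)) + 1) *
      Real.log (4 * (n * L0 : ℕ))) / n) atTop (𝓝 0) := by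
    rcases Nat.eq_zero_or_pos L0 with h | hpos
    · subst h
      simp only [mul_zero, Nat.cast_zero, Real.log_zero, zero_add, add_zero]
      exact tendsto_const_nhds.div_atTop tendsto_natCast_atTop_atTop
    · have hc : (0 : ℝ) < 4 * L0 := by positivity
      have e : (fun n : ℕ => (Real.log 2 + (4 / η ^ 2 * Real.log (4 * (n * L0 : ℕ)) + 1) *
          Real.log (4 * (n * L0 : ℕ))) / n) =ᶠ[atTop]
          (fun x : ℝ => (4 * (L0 : ℝ)) * ((Real.log 2) * (1 / x) + 4 / η ^ 2 *
            (Real.log x ^ 2 / x) + Real.log x ^ 1 / x)) ∘ (fun n : ℕ => (4 * (L0 : ℝ)) * n) := by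
        filter_upwards [eventually_gt_atTop 0] with n hn
        have hn' : (0 : ℝ) < n := by exact_mod_cast hn
        have e2 : (4 : ℝ) * ((n * L0 : ℕ) : ℝ) = 4 * L0 * n := by push_cast; ring
        simp only [Function.comp]
        rw [e2]
        field_simp
        ring
      refine Tendsto.congr' e.symm ?_
      have hlim : Tendsto (fun n : ℕ => (4 * (L0 : ℝ)) * n) atTop atTop :=
        tendsto_natCast_atTop_atTop.const_mul_atTop hc
      refine Tendsto.comp ?_ hlim
      have a1 : Tendsto (fun x : ℝ => Real.log 2 * (1 / x)) atTop (𝓝 0) := by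
        have := (tendsto_inv_atTop_zero (𝕜 := ℝ)).const_mul (Real.log 2)
        simpa [one_div] using this
      have hlog : ∀ j : ℕ, Tendsto (fun x : ℝ => Real.log x ^ j / x) atTop (𝓝 0) := by
        intro j
        have := (Real.isLittleO_pow_log_id_atTop (n := j)).tendsto_div_nhds_zero
        exact this
      have a2 := (hlog 2).const_mul (4 / η ^ 2)
      have a3 := hlog 1
      have := ((a1.add a2).add a3).const_mul (4 * (L0 : ℝ))
      simpa using this
  filter_upwards [h1.eventually (gt_mem_nhds hδ), eventually_gt_atTop 0] with n hn1 hn2 N hN1 hN2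
  have hn : (0 : ℝ) < n := by exact_mod_cast hn2
  rw [div_lt_iff₀ hn] at hn1
  have hNr : (1 : ℝ) ≤ N := by exact_mod_cast hN1
  have h4N : (1 : ℝ) < 4 * N := by linarith
  have hlogpos : 0 < Real.log (4 * N) := Real.log_pos h4N
  refine ⟨⌈4 / η ^ 2 * Real.log (4 * N)⌉₊, ?_, ?_⟩
  · have h2 := Nat.le_ceil (4 / η ^ 2 * Real.log (4 * N))
    have h3 : Real.log (4 * N) ≤ (⌈4 / η ^ 2 * Real.log (4 * N)⌉₊ : ℝ) * η ^ 2 / 4 := by
      have : Real.log (4 * N) = (4 / η ^ 2 * Real.log (4 * N)) * η ^ 2 / 4 := by field_simp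
      rw [this]
      gcongr
      field_simp at h2 ⊢
      linarith
    have h4 : Real.exp (-((⌈4 / η ^ 2 * Real.log (4 * N)⌉₊ : ℝ) * η ^ 2 / 4)) ≤ (4 * (N : ℝ))⁻¹ := by
      calc _ ≤ Real.exp (-(Real.log (4 * N))) := Real.exp_le_exp.2 (by linarith)
        _ = _ := by rw [Real.exp_neg, Real.exp_log (by linarith)]
    calc (N : ℝ) * (2 * Real.exp (-((⌈4 / η ^ 2 * Real.log (4 * N)⌉₊ : ℝ) * η ^ 2 / 4))) ≤
        N * (2 * (4 * (N : ℝ))⁻¹) := by gcongr
      _ = 1 / 2 := by field_simp; norm_num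
  · have h2 := Nat.ceil_lt_add_one (show 0 ≤ 4 / η ^ 2 * Real.log (4 * N) by positivity)
    have h5 : Real.log (4 * N) ≤ Real.log (4 * (n * L0 : ℕ)) := by
      apply Real.log_le_log (by linarith)
      have : (N : ℝ) ≤ ((n * L0 : ℕ) : ℝ) := by exact_mod_cast hN2
      linarith
    have h6 : 2 * (4 * N : ℝ) ^ ⌈4 / η ^ 2 * Real.log (4 * N)⌉₊ =
        Real.exp (Real.log 2 + ⌈4 / η ^ 2 * Real.log (4 * N)⌉₊ * Real.log (4 * N)) := by
      rw [Real.exp_add, Real.exp_log (by norm_num), Real.exp_nat_mul, Real.exp_log (by linarith)]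
    rw [h6]
    apply Real.exp_le_exp.2
    have h7 : (⌈4 / η ^ 2 * Real.log (4 * N)⌉₊ : ℝ) * Real.log (4 * N) ≤
        (4 / η ^ 2 * Real.log (4 * (n * L0 : ℕ)) + 1) * Real.log (4 * (n * L0 : ℕ)) := by
      apply mul_le_mul _ h5 hlogpos.le
      · have : 0 ≤ Real.log (4 * (n * L0 : ℕ)) := hlogpos.le.trans h5
        positivity
      · have : 4 / η ^ 2 * Real.log (4 * N) ≤ 4 / η ^ 2 * Real.log (4 * (n * L0 : ℕ)) := by gcongr
        linarith
    linarith

lemma null (a : ℕ → ℕ) (ε : ℝ) (hε : 0 < ε) (δ : ℝ) (hδ : 0 < δ) :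
    ∀ᶠ n in atTop, ∀ Fs : Finset XX,
      (∀ x ∈ Fs, ∀ y ∈ Fs, x ≠ y → ∃ i < n, ε ≤ dist (T^[a i] x) (T^[a i] y)) →
      (Fs.card : ℝ) ≤ Real.exp (δ * n) := by
  classical
  obtain ⟨L0, η0, hL0, hη0, hco⟩ := coord_of_dist hε
  set η : ℝ := min (η0 / 6) 1 with hηdef
  have hη : 0 < η := by positivity
  have hη1 : η ≤ η0 / 6 := min_le_left _ _
  have hη2 : η ≤ 2 := (min_le_right _ _).trans (by norm_num)
  filter_upwards [asymp L0 hη hδ, eventually_gt_atTop 0] with n hn hn0 Fs hFs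
  -- the coordinates
  set C : Finset ℕ := (Finset.range n).biUnion (fun i => (Finset.range L0).image (fun l => l + a i))
    with hC
  have hCne : C.Nonempty := ⟨0 + a 0, by
    rw [hC, Finset.mem_biUnion]
    exact ⟨0, Finset.mem_range.2 hn0, Finset.mem_image.2 ⟨0, Finset.mem_range.2 hL0, rfl⟩⟩⟩
  have hCcard : C.card ≤ n * L0 := by
    calc C.card ≤ ∑ i ∈ Finset.range n, ((Finset.range L0).image (fun l => l + a i)).card :=
          Finset.card_biUnion_le
      _ ≤ ∑ _i ∈ Finset.range n, L0 := Finset.sum_le_sum fun i _ => by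
          refine Finset.card_image_le.trans ?_
          rw [Finset.card_range]
      _ = n * L0 := by simp
  obtain ⟨L, hL1, hL2⟩ := hn C.card hCne.card_pos hCcard
  -- approximation by points of the orbit
  have happ : ∀ x : XX, ∃ m : ℕ, ∀ c ∈ C, |((x.1 c : Set.Icc (0 : ℝ) 1) : ℝ) - F (m + c)| < η := by
    intro x
    have hopen : IsOpen {z : Amb | ∀ c ∈ C, |((x.1 c : Set.Icc (0 : ℝ) 1) : ℝ) - z c| < η} := by
      have : {z : Amb | ∀ c ∈ C, |((x.1 c : Set.Icc (0 : ℝ) 1) : ℝ) - z c| < η} =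
          ⋂ c ∈ C, {z : Amb | |((x.1 c : Set.Icc (0 : ℝ) 1) : ℝ) - z c| < η} := by
        ext z; simp
      rw [this]
      apply isOpen_biInter_finset
      intro c _
      apply isOpen_lt _ continuous_const
      exact (continuous_const.sub (continuous_subtype_val.comp (continuous_apply c))).abs
    obtain ⟨z, hz, m, rfl⟩ := mem_closure_iff.1 x.2 _ hopen (by
      intro c _; rw [sub_self, abs_zero]; exact hη)
    refine ⟨m, fun c hc => ?_⟩
    have := hz c hc
    simp only [sh_iter] at this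
    rw [add_comm m c]
    exact this
  choose μ hμ using happ
  -- separated coordinates
  have hsep0 : ∀ x ∈ Fs, ∀ y ∈ Fs, x ≠ y → ∃ c ∈ C, 4 * η ≤ |F (μ x + c) - F (μ y + c)| := by
    intro x hx y hy hne
    obtain ⟨i, hi, hd⟩ := hFs x hx y hy hne
    have hd' : ε ≤ dist (T^[a i] x).1 (T^[a i] y).1 := hd
    obtain ⟨l, hl, hd2⟩ := hco _ _ hd'
    rw [T_iter, T_iter, sh_iter, sh_iter] at hd2
    have hcC : l + a i ∈ C := by
      rw [hC, Finset.mem_biUnion]
      exact ⟨i, Finset.mem_range.2 hi, Finset.mem_image.2 ⟨l, Finset.mem_range.2 hl, rfl⟩⟩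
    refine ⟨l + a i, hcC, ?_⟩
    have b1 := hμ x _ hcC
    have b2 := hμ y _ hcC
    set A := F (μ x + (l + a i))
    set B := F (μ y + (l + a i))
    set u := ((x.1 (l + a i) : Set.Icc (0 : ℝ) 1) : ℝ)
    set v := ((y.1 (l + a i) : Set.Icc (0 : ℝ) 1) : ℝ)
    have h3 : |u - v| ≤ |u - A| + |A - B| + |v - B| := by
      have e : u - v = (u - A) + (A - B) - (v - B) := by ring
      rw [e]
      refine (abs_sub _ _).trans ?_
      have := abs_add_le (u - A) (A - B)
      linarith
    linarith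
  have hinj : Set.InjOn μ Fs := by
    intro x hx y hy hxy
    by_contra hne
    obtain ⟨c, -, hc2⟩ := hsep0 x hx y hy hne
    rw [hxy, sub_self, abs_zero] at hc2
    linarith
  set M : Finset ℕ := Fs.image μ with hM
  have hcardM : M.card = Fs.card := Finset.card_image_of_injOn hinj
  -- choose the level
  have hk : ∃ k : ℕ, ∀ m ∈ M, ∀ c ∈ C, |F (m + c) - Fk k ((m + c : ℕ) : ℤ)| ≤ η := by
    have h1 : ∀ᶠ k in atTop, ∀ mc ∈ M ×ˢ C, |F (mc.1 + mc.2) - Fk k ((mc.1 + mc.2 : ℕ) : ℤ)| ≤ η := by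
      rw [Filter.eventually_all_finset]
      intro mc _
      have h2 := tendsto_F (mc.1 + mc.2)
      rw [Metric.tendsto_atTop] at h2
      obtain ⟨K, hK⟩ := h2 η hη
      filter_upwards [eventually_ge_atTop K] with k hk
      have := hK k hk
      rw [dist_comm, Real.dist_eq] at this
      exact this.le
    obtain ⟨k, hk⟩ := h1.exists
    exact ⟨k, fun m hm c hc => hk (m, c) (Finset.mem_product.2 ⟨hm, hc⟩)⟩
  obtain ⟨k, hk⟩ := hk
  have hfin := card_bound k L M C hCne hη hη2 hL1 (by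
    intro m hm m' hm' hne
    obtain ⟨x, hx, rfl⟩ := Finset.mem_image.1 hm
    obtain ⟨y, hy, rfl⟩ := Finset.mem_image.1 hm'
    have hxy : x ≠ y := fun h => hne (by rw [h])
    obtain ⟨c, hc, hc2⟩ := hsep0 x hx y hy hxy
    refine ⟨c, hc, ?_⟩
    have b1 := hk _ hm c hc
    have b2 := hk _ hm' c hc
    set A := F (μ x + c)
    set B := F (μ y + c)
    set A' := Fk k ((μ x + c : ℕ) : ℤ)
    set B' := Fk k ((μ y + c : ℕ) : ℤ)
    have h3 : |A - B| ≤ |A - A'| + |A' - B'| + |B - B'| := by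
      have e : A - B = (A - A') + (A' - B') - (B - B') := by ring
      rw [e]
      refine (abs_sub _ _).trans ?_
      have := abs_add_le (A - A') (A' - B')
      linarith
    linarith)
  rw [hcardM] at hfin
  exact hfin.trans hL2

end Pool.Agent.U605.Null
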