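import Mathlib

/-!
# Metric mean dimension of Hölder maps of the interval

Definitions of separated sets and of the upper and lower metric mean dimension, and the bound
`mdim ≤ 1 - α` for `α`-Hölder maps of `[0, 1]`.
-/

set_option autoImplicit false

open Filter Topology
open scoped NNReal

namespace Pool.Agent.U605.MMD

/-- `E` is `(n, ε)`-separated for `T`: for distinct `x, y ∈ E` there is `k < n` with
`d(T^k x, T^k y) > ε`. -/
def IsSep {X : Type*} [MetricSpace X] (T : X → X) (n : ℕ) (ε : ℝ) (E : Finset X) : Prop :=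
  ∀ x ∈ E, ∀ y ∈ E, x ≠ y → ∃ k < n, ε < dist (T^[k] x) (T^[k] y)

/-- `log s(n, ε)`: the supremum of `log |E|` over the `(n, ε)`-separated sets `E`. -/
noncomputable def logSep {X : Type*} [MetricSpace X] (T : X → X) (n : ℕ) (ε : ℝ) : EReal :=
  ⨆ (E : Finset X) (_ : IsSep T n ε E), ((Real.log E.card : ℝ) : EReal)

/-- `h(T, ε) = limsup_n (1/n) log s(n, ε)`. -/
noncomputable def hEps {X : Type*} [MetricSpace X] (T : X → X) (ε : ℝ) : EReal :=
  limsup (fun n : ℕ => logSep T n ε / (((n : ℝ)) : EReal)) atTop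

/-- The upper metric mean dimension `limsup_{ε → 0} h(T, ε) / |log ε|`. -/
noncomputable def upperMdim {X : Type*} [MetricSpace X] (T : X → X) : EReal :=
  limsup (fun ε : ℝ => hEps T ε / ((|Real.log ε| : ℝ) : EReal)) (𝓝[>] 0)

/-- The lower metric mean dimension `liminf_{ε → 0} h(T, ε) / |log ε|`. -/
noncomputable def lowerMdim {X : Type*} [MetricSpace X] (T : X → X) : EReal :=
  liminf (fun ε : ℝ => hEps T ε / ((|Real.log ε| : ℝ) : EReal)) (𝓝[>] 0)

/-- The interval `[0, 1]`. -/
abbrev I : Type := Set.Icc (0 : ℝ) 1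

/-- The index of the cell of length `1/N` containing `x`. -/
noncomputable def cell (N : ℕ) (x : I) : ℤ := ⌊(N : ℝ) * x.1⌋

lemma dist_lt_of_cell {N : ℕ} (hN : 0 < N) {x y : I} (h : cell N x = cell N y) :
    dist x y < 1 / N := by
  have hN' : (0 : ℝ) < N := by exact_mod_cast hN
  have h1 := Int.abs_sub_lt_one_of_floor_eq_floor h
  rw [← mul_sub, abs_mul, abs_of_pos hN'] at h1
  rw [Subtype.dist_eq, Real.dist_eq, lt_div_iff₀ hN']
  linarith

lemma cell_mem {N : ℕ} (x : I) : cell N x ∈ Finset.Icc (0 : ℤ) N := by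
  rw [Finset.mem_Icc]
  unfold cell
  have h0 := x.2.1
  have h1 := x.2.2
  have hN : (0 : ℝ) ≤ N := Nat.cast_nonneg N
  constructor
  · exact Int.floor_nonneg.2 (mul_nonneg hN h0)
  · rw [Int.floor_le_iff]
    push_cast
    nlinarith

/-- Points of the same cell are mapped to cells which are not far from each other. -/
lemma cell_map {T : I → I} {K α : ℝ≥0} (hT : HolderWith K α T) {N : ℕ} (hN : 0 < N) {x y : I}
    (h : cell N x = cell N y) :
    |(cell N (T x) : ℝ) - cell N (T y)| ≤ K * (N : ℝ) ^ (1 - (α : ℝ)) + 1 := by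
  have hN' : (0 : ℝ) < N := by exact_mod_cast hN
  have h1 : dist (T x) (T y) ≤ K * (1 / N : ℝ) ^ (α : ℝ) := by
    refine (hT.dist_le x y).trans ?_
    gcongr
    exact (dist_lt_of_cell hN h).le
  have h2 : (N : ℝ) * dist (T x) (T y) ≤ K * (N : ℝ) ^ (1 - (α : ℝ)) := by
    have e : (N : ℝ) * (K * (1 / N : ℝ) ^ (α : ℝ)) = K * (N : ℝ) ^ (1 - (α : ℝ)) := by
      rw [Real.rpow_sub hN', Real.rpow_one, one_div, Real.inv_rpow hN'.le]
      ring
    rw [← e]
    exact mul_le_mul_of_nonneg_left h1 hN'.le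
  rw [Subtype.dist_eq, Real.dist_eq, ← abs_of_pos hN', ← abs_mul, mul_sub, abs_of_pos hN'] at h2
  unfold cell
  have a1 := Int.floor_le ((N : ℝ) * (T x).1)
  have a2 := Int.lt_floor_add_one ((N : ℝ) * (T x).1)
  have b1 := Int.floor_le ((N : ℝ) * (T y).1)
  have b2 := Int.lt_floor_add_one ((N : ℝ) * (T y).1)
  have c := abs_le.1 h2
  rw [abs_le]
  constructor <;> linarith [c.1, c.2]

/-- The itinerary. -/
noncomputable def itin (T : I → I) (N n : ℕ) (x : I) : Fin n → ℤ := fun k => cell N (T^[k] x)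

/-- The number of possible successors of a cell. -/
noncomputable def succs (K α : ℝ≥0) (N : ℕ) : ℕ := 2 * ⌈(K : ℝ) * (N : ℝ) ^ (1 - (α : ℝ)) + 1⌉₊ + 1

lemma card_itin {T : I → I} {K α : ℝ≥0} (hT : HolderWith K α T) {N : ℕ} (hN : 0 < N)
    (E : Finset I) (n : ℕ) :
    (E.image (itin T N n)).card ≤ (N + 1) * (succs K α N) ^ n := by
  classical
  induction n with
  | zero =>
    have : (E.image (itin T N 0)).card ≤ 1 := by
      apply Finset.card_le_one.2
      intro a _ b _
      funext k; exact k.elim0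
    simp only [pow_zero, mul_one]
    omega
  | succ n ih =>
    let f : (Fin (n + 1) → ℤ) → (Fin n → ℤ) := fun w k => w k.castSucc
    have himg : (E.image (itin T N (n + 1))).image f = E.image (itin T N n) := by
      rw [Finset.image_image]
      rfl
    rcases Nat.eq_zero_or_pos n with h0 | hpos
    · subst h0
      -- at most `N + 1` cells
      have : (E.image (itin T N 1)).card ≤ N + 1 := by
        have hsub : (E.image (itin T N 1)).card ≤ (Finset.Icc (0 : ℤ) N).card := by
          apply Finset.card_le_card_of_injOn (fun w => w 0)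
          · intro w hw
            rw [Finset.mem_coe, Finset.mem_image] at hw
            obtain ⟨x, -, rfl⟩ := hw
            exact cell_mem _
          · intro w _ w' _ h
            funext k
            have : k = 0 := Subsingleton.elim _ _
            rw [this]; exact h
        refine hsub.trans ?_
        rw [Int.card_Icc]; simp
      have h1 : 1 ≤ succs K α N := by unfold succs; omega
      calc _ ≤ N + 1 := this
        _ = (N + 1) * 1 := by ring
        _ ≤ _ := Nat.mul_le_mul_left _ (by simpa using h1)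
    · have key : (E.image (itin T N (n + 1))).card ≤
          (succs K α N) * ((E.image (itin T N (n + 1))).image f).card := by
        apply Finset.card_le_mul_card_image
        intro w hw
        rw [Finset.mem_image] at hw
        obtain ⟨w0, hw0, hfw⟩ := hw
        obtain ⟨x0, -, rfl⟩ := Finset.mem_image.1 hw0
        set B : ℕ := ⌈(K : ℝ) * (N : ℝ) ^ (1 - (α : ℝ)) + 1⌉₊ with hB
        set j0 : ℤ := cell N (T^[n] x0) with hj0
        have hsub : ((E.image (itin T N (n + 1))).filter (fun v => f v = w)).card ≤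
            (Finset.Icc (j0 - B) (j0 + B)).card := by
          apply Finset.card_le_card_of_injOn (fun v => v (Fin.last n))
          · intro v hv
            rw [Finset.mem_coe, Finset.mem_filter] at hv
            obtain ⟨hv1, hv2⟩ := hv
            obtain ⟨x, -, rfl⟩ := Finset.mem_image.1 hv1
            have e : f (itin T N (n + 1) x) = f (itin T N (n + 1) x0) := by rw [hv2, hfw]
            have e2 : cell N (T^[n - 1] x) = cell N (T^[n - 1] x0) := by
              have := congrFun e ⟨n - 1, by omega⟩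
              exact this
            have h3 := cell_map hT hN e2
            rw [← Function.iterate_succ_apply' T, ← Function.iterate_succ_apply' T,
              show (n - 1).succ = n by omega] at h3
            have h4 : |(cell N (T^[n] x) : ℝ) - j0| ≤ B := h3.trans (Nat.le_ceil _)
            have h5 : |cell N (T^[n] x) - j0| ≤ (B : ℤ) := by exact_mod_cast h4
            rw [Finset.mem_coe, Finset.mem_Icc]
            have h6 := abs_le.1 h5
            show j0 - B ≤ cell N (T^[n] x) ∧ cell N (T^[n] x) ≤ j0 + B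
            constructor <;> omega
          · intro v hv v' hv' h
            rw [Finset.mem_coe, Finset.mem_filter] at hv hv'
            funext k
            refine Fin.lastCases ?_ (fun i => ?_) k
            · exact h
            · have : f v = f v' := by rw [hv.2, hv'.2]
              exact congrFun this i
        refine hsub.trans ?_
        rw [Int.card_Icc]
        unfold succs
        rw [← hB]
        omega
      rw [himg] at key
      calc _ ≤ _ := key
        _ ≤ succs K α N * ((N + 1) * (succs K α N) ^ n) := Nat.mul_le_mul_left _ ih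
        _ = _ := by ring

lemma card_sep {T : I → I} {K α : ℝ≥0} (hT : HolderWith K α T) {N : ℕ} (hN : 0 < N) {ε : ℝ}
    (hε : 1 / (N : ℝ) ≤ ε) {n : ℕ} {E : Finset I} (hE : IsSep T n ε E) :
    E.card ≤ (N + 1) * (succs K α N) ^ n := by
  classical
  refine le_trans ?_ (card_itin hT hN E n)
  rw [Finset.card_image_of_injOn]
  intro x hx y hy hxy
  by_contra hne
  obtain ⟨k, hk, hd⟩ := hE x hx y hy hne
  have h1 : cell N (T^[k] x) = cell N (T^[k] y) := congrFun hxy ⟨k, hk⟩
  have h2 := dist_lt_of_cell hN h1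
  linarith

lemma logSep_le {T : I → I} {K α : ℝ≥0} (hT : HolderWith K α T) {N : ℕ} (hN : 0 < N) {ε : ℝ}
    (hε : 1 / (N : ℝ) ≤ ε) (n : ℕ) :
    logSep T n ε ≤ ((Real.log (N + 1) + n * Real.log (succs K α N) : ℝ) : EReal) := by
  unfold logSep
  refine iSup₂_le fun E hE => ?_
  rw [EReal.coe_le_coe_iff]
  have hs : 1 ≤ succs K α N := by unfold succs; omega
  have hs' : (0 : ℝ) < succs K α N := by exact_mod_cast hs
  rcases Nat.eq_zero_or_pos E.card with h0 | hpos
  · rw [h0, Nat.cast_zero, Real.log_zero]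
    have h1 : 0 ≤ Real.log (N + 1) := Real.log_nonneg (by
      have : (0 : ℝ) ≤ N := Nat.cast_nonneg N
      linarith)
    have h2 : 0 ≤ Real.log (succs K α N) := Real.log_nonneg (by exact_mod_cast hs)
    positivity
  · have h1 := card_sep hT hN hε hE
    have h2 : (E.card : ℝ) ≤ (N + 1) * (succs K α N) ^ n := by exact_mod_cast h1
    calc Real.log E.card ≤ Real.log ((N + 1) * (succs K α N) ^ n) :=
          Real.log_le_log (by exact_mod_cast hpos) h2
      _ = _ := by
          rw [Real.log_mul (by positivity) (by positivity), Real.log_pow]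

lemma hEps_le {T : I → I} {K α : ℝ≥0} (hT : HolderWith K α T) {N : ℕ} (hN : 0 < N) {ε : ℝ}
    (hε : 1 / (N : ℝ) ≤ ε) : hEps T ε ≤ ((Real.log (succs K α N) : ℝ) : EReal) := by
  unfold hEps
  have hlim : Tendsto (fun n : ℕ => (((Real.log (N + 1)) / n + Real.log (succs K α N) : ℝ) : EReal))
      atTop (𝓝 ((Real.log (succs K α N) : ℝ) : EReal)) := by
    rw [EReal.tendsto_coe]
    have h1 : Tendsto (fun n : ℕ => (Real.log (N + 1)) / (n : ℝ)) atTop (𝓝 0) :=
      tendsto_const_nhds.div_atTop tendsto_natCast_atTop_atTop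
    have := h1.add_const (Real.log (succs K α N))
    rwa [zero_add] at this
  rw [← hlim.limsup_eq]
  refine limsup_le_limsup ?_ (by isBoundedDefault) (by isBoundedDefault)
  filter_upwards [eventually_gt_atTop 0] with n hn
  have hn' : (0 : ℝ) < n := by exact_mod_cast hn
  have h1 := logSep_le hT hN hε n
  have h2 : (0 : EReal) < ((n : ℝ) : EReal) := by exact_mod_cast hn'
  calc logSep T n ε / ((n : ℝ) : EReal) ≤
      ((Real.log (N + 1) + n * Real.log (succs K α N) : ℝ) : EReal) / ((n : ℝ) : EReal) :=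
        EReal.div_le_div_right_of_nonneg h2.le h1
    _ = (((Real.log (N + 1) + n * Real.log (succs K α N)) / n : ℝ) : EReal) := by
        rw [EReal.coe_div]
    _ = _ := by
        congr 1
        field_simp

/-- Growth of the number of successors. -/
lemma tendsto_succs {K α : ℝ≥0} (hα : (α : ℝ) ≤ 1) :
    ∀ δ : ℝ, 0 < δ → ∀ᶠ ε : ℝ in 𝓝[>] 0,
      Real.log (succs K α ⌈1 / ε⌉₊) ≤ (1 - (α : ℝ) + δ) * |Real.log ε| := by
  intro δ hδ
  -- `succs ≤ (2 K + 5) * (2/ε)^(1-α)`
  have hc : (0 : ℝ) < 2 * K + 5 := by positivity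
  have hlog : Tendsto (fun ε : ℝ => |Real.log ε|) (𝓝[>] 0) atTop := by
    have := Real.tendsto_log_nhdsGT_zero
    exact tendsto_abs_atBot_atTop.comp this
  have h1 := hlog.eventually (eventually_ge_atTop
    ((Real.log (2 * K + 5) + (1 - (α : ℝ)) * Real.log 2) / δ))
  have h2 : ∀ᶠ ε : ℝ in 𝓝[>] 0, ε < 1 :=
    (eventually_lt_nhds (by norm_num : (0 : ℝ) < 1)).filter_mono nhdsWithin_le_nhds
  filter_upwards [h1, h2, self_mem_nhdsWithin] with ε hε1 hε2 hε3
  have hε3' : (0 : ℝ) < ε := hε3
  rw [div_le_iff₀ hδ] at hε1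
  have hinv : 1 < 1 / ε := by rw [lt_div_iff₀ hε3']; linarith
  have hN1 : (⌈1 / ε⌉₊ : ℝ) ≤ 2 / ε := by
    have := (Nat.ceil_lt_add_one (by positivity : 0 ≤ 1 / ε)).le
    have e : 2 / ε = 1 / ε + 1 / ε := by ring
    linarith
  have hN0 : (1 : ℝ) ≤ (⌈1 / ε⌉₊ : ℝ) := by
    have := Nat.le_ceil (1 / ε)
    linarith
  set M := (⌈1 / ε⌉₊ : ℝ) with hM
  have hb : (1 : ℝ) ≤ M ^ (1 - (α : ℝ)) := Real.one_le_rpow hN0 (by linarith)
  have hs : (succs K α ⌈1 / ε⌉₊ : ℝ) ≤ (2 * K + 5) * M ^ (1 - (α : ℝ)) := by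
    unfold succs
    push_cast
    have h3 : (⌈(K : ℝ) * M ^ (1 - (α : ℝ)) + 1⌉₊ : ℝ) ≤ K * M ^ (1 - (α : ℝ)) + 1 + 1 :=
      (Nat.ceil_lt_add_one (by positivity)).le
    rw [← hM]
    nlinarith
  have hspos : (0 : ℝ) < succs K α ⌈1 / ε⌉₊ := by
    unfold succs; positivity
  have hMle : M ^ (1 - (α : ℝ)) ≤ (2 / ε) ^ (1 - (α : ℝ)) :=
    Real.rpow_le_rpow (by linarith) hN1 (by linarith)
  have h4 : Real.log (succs K α ⌈1 / ε⌉₊) ≤
      Real.log ((2 * K + 5) * (2 / ε) ^ (1 - (α : ℝ))) := by
    apply Real.log_le_log hspos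
    refine hs.trans ?_
    gcongr
  have h5 : Real.log ((2 * K + 5) * (2 / ε) ^ (1 - (α : ℝ))) =
      Real.log (2 * K + 5) + (1 - (α : ℝ)) * (Real.log 2 - Real.log ε) := by
    rw [Real.log_mul hc.ne' (by positivity), Real.log_rpow (by positivity),
      Real.log_div (by norm_num) hε3'.ne']
  have h6 : |Real.log ε| = - Real.log ε := abs_of_neg (Real.log_neg hε3' hε2)
  rw [h6] at hε1 ⊢
  rw [h5] at h4
  nlinarith

/-- **The main bound**: an `α`-Hölder map of `[0,1]` has upper metric mean dimension at most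
`1 - α`. -/
theorem upperMdim_le {T : I → I} {K α : ℝ≥0} (hα : (α : ℝ) ≤ 1) (hT : HolderWith K α T) :
    upperMdim T ≤ ((1 - (α : ℝ) : ℝ) : EReal) := by
  have key : ∀ δ : ℝ, 0 < δ → upperMdim T ≤ ((1 - (α : ℝ) + δ : ℝ) : EReal) := by
    intro δ hδ
    unfold upperMdim
    apply limsup_le_of_le (by isBoundedDefault)
    have h2 : ∀ᶠ ε : ℝ in 𝓝[>] 0, ε < 1 :=
      (eventually_lt_nhds (by norm_num : (0 : ℝ) < 1)).filter_mono nhdsWithin_le_nhds
    filter_upwards [tendsto_succs (K := K) hα δ hδ, h2, self_mem_nhdsWithin] with ε h1 hε2 hε3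
    have hε3' : (0 : ℝ) < ε := hε3
    have hlogpos : 0 < |Real.log ε| := abs_pos.2 (Real.log_neg hε3' hε2).ne
    have hN : 0 < ⌈1 / ε⌉₊ := Nat.ceil_pos.2 (by positivity)
    have hN' : 1 / ((⌈1 / ε⌉₊ : ℕ) : ℝ) ≤ ε := by
      rw [div_le_iff₀ (by exact_mod_cast hN)]
      have := Nat.le_ceil (1 / ε)
      rw [div_le_iff₀ hε3'] at this
      linarith
    have h3 := hEps_le hT hN hN'
    have h4 : (0 : EReal) ≤ ((|Real.log ε| : ℝ) : EReal) := by exact_mod_cast hlogpos.le
    calc hEps T ε / ((|Real.log ε| : ℝ) : EReal) ≤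
        ((Real.log (succs K α ⌈1 / ε⌉₊) : ℝ) : EReal) / ((|Real.log ε| : ℝ) : EReal) :=
          EReal.div_le_div_right_of_nonneg h4 h3
      _ = ((Real.log (succs K α ⌈1 / ε⌉₊) / |Real.log ε| : ℝ) : EReal) := by
          rw [EReal.coe_div]
      _ ≤ _ := by
          rw [EReal.coe_le_coe_iff, div_le_iff₀ hlogpos]
          exact h1
  refine EReal.le_of_forall_lt_iff_le.1 ?_
  intro z hz
  have hz' : 1 - (α : ℝ) < z := by exact_mod_cast hz
  have := key (z - (1 - (α : ℝ))) (by linarith)
  have e : 1 - (α : ℝ) + (z - (1 - (α : ℝ))) = z := by ring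
  rwa [e] at this

lemma logSep_nonneg {X : Type*} [MetricSpace X] (T : X → X) (n : ℕ) (ε : ℝ) :
    0 ≤ logSep T n ε := by
  unfold logSep
  have h : IsSep T n ε (∅ : Finset X) := by intro x hx; simp at hx
  refine le_trans ?_ (le_iSup₂_of_le (f := fun (E : Finset X) (_ : IsSep T n ε E) =>
    ((Real.log E.card : ℝ) : EReal)) ∅ h le_rfl)
  simp

lemma hEps_nonneg {X : Type*} [MetricSpace X] (T : X → X) (ε : ℝ) : 0 ≤ hEps T ε := by
  unfold hEps
  apply le_limsup_of_frequently_le' 
  exact Frequently.of_forall fun n => EReal.div_nonneg (logSep_nonneg T n ε)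
    (by exact_mod_cast Nat.cast_nonneg n)

lemma lowerMdim_nonneg {X : Type*} [MetricSpace X] (T : X → X) : 0 ≤ lowerMdim T := by
  unfold lowerMdim
  apply le_liminf_of_le (by isBoundedDefault)
  exact Eventually.of_forall fun ε => EReal.div_nonneg (hEps_nonneg T ε)
    (by exact_mod_cast abs_nonneg _)

lemma lower_le_upper {X : Type*} [MetricSpace X] (T : X → X) : lowerMdim T ≤ upperMdim T :=
  liminf_le_limsup

end Pool.Agent.U605.MMD
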