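import Mathlib

/-!
# A null transitive system with two fixed points: the function `F`

`g k x y` is a `0`-`1` valued kernel with a tree structure: at level `k + 1` the circle
`ℤ / q (k+1)` is divided into four cells of length `p k`; if `x` and `y` lie in different cells
then the value is `χ k`, otherwise the value is `g k x y`.  The function `Fk k d` is the average of
`g k (d + u) u` over a period and `F d` is the limit.
-/

set_option autoImplicit false

open Filter Topology

namespace Pool.Agent.U605.Null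

/-- The periods. -/
def q : ℕ → ℕ
  | 0 => 1
  | (k + 1) => 4 * (2 ^ (k + 2) * q k)

/-- The lengths of the cells. -/
def p (k : ℕ) : ℕ := 2 ^ (k + 2) * q k

lemma q_succ (k : ℕ) : q (k + 1) = 4 * p k := rfl

lemma q_pos (k : ℕ) : 0 < q k := by
  induction k with
  | zero => simp [q]
  | succ k ih => rw [q]; positivity

lemma p_pos (k : ℕ) : 0 < p k := by
  unfold p; have := q_pos k; positivity

lemma q_dvd (k : ℕ) : q k ∣ q (k + 1) := ⟨4 * 2 ^ (k + 2), by rw [q]; ring⟩

lemma p_succ_ge (k : ℕ) : 2 * p k ≤ p (k + 1) := by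
  have h : p (k + 1) = 2 ^ (k + 3) * (4 * p k) := by
    unfold p; rw [q]
  rw [h]
  have h2 : 1 ≤ 2 ^ (k + 3) := Nat.one_le_two_pow
  nlinarith [p_pos k]

lemma two_pow_le_p (k : ℕ) : 2 ^ k ≤ p k := by
  unfold p
  calc 2 ^ k ≤ 2 ^ (k + 2) := Nat.pow_le_pow_right (by norm_num) (by omega)
    _ = 2 ^ (k + 2) * 1 := by ring
    _ ≤ _ := Nat.mul_le_mul_left _ (q_pos k)

/-- The cell of `x` at level `k`. -/
def cell (k : ℕ) (x : ℤ) : ℤ := (x % (q (k + 1) : ℤ)) / (p k : ℤ)

/-- The constants `0, 1, 0, 1, …`. -/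
def chi (k : ℕ) : Bool := decide (k % 2 = 1)

/-- The tree kernel. -/
def g : ℕ → ℤ → ℤ → Bool
  | 0, _, _ => false
  | (k + 1), x, y => if cell k x = cell k y then g k x y else chi k

lemma cell_add_mul (k : ℕ) (x z : ℤ) : cell k (x + q (k + 1) * z) = cell k x := by
  unfold cell; rw [Int.add_mul_emod_self_left]

lemma g_add_mul_left (k : ℕ) (x y z : ℤ) : g k (x + q k * z) y = g k x y := by
  induction k generalizing z with
  | zero => rfl
  | succ k ih =>
    obtain ⟨c, hc⟩ := q_dvd k
    have h1 : g k (x + q (k + 1) * z) y = g k x y := by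
      have := ih (c * z)
      rw [hc]; push_cast
      rw [mul_assoc]; exact this
    rw [g, g, cell_add_mul, h1]

lemma g_add_mul_right (k : ℕ) (x y z : ℤ) : g k x (y + q k * z) = g k x y := by
  induction k generalizing z with
  | zero => rfl
  | succ k ih =>
    obtain ⟨c, hc⟩ := q_dvd k
    have h1 : g k x (y + q (k + 1) * z) = g k x y := by
      have := ih (c * z)
      rw [hc]; push_cast
      rw [mul_assoc]; exact this
    rw [g, g, cell_add_mul, h1]

/-- The real number attached to a Boolean. -/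
def b2r (b : Bool) : ℝ := if b then 1 else 0

lemma b2r_nonneg (b : Bool) : 0 ≤ b2r b := by cases b <;> simp [b2r]
lemma b2r_le_one (b : Bool) : b2r b ≤ 1 := by cases b <;> simp [b2r]
lemma abs_b2r_sub (b c : Bool) : |b2r b - b2r c| ≤ 1 := by
  cases b <;> cases c <;> simp [b2r]

/-! ### Sums over a period -/

lemma sum_shift {h : ℤ → ℝ} {Q : ℕ} (hp : ∀ x, h (x + Q) = h x) (t : ℤ) :
    ∑ u ∈ Finset.range Q, h (t + u) = ∑ u ∈ Finset.range Q, h u := by
  have step : ∀ t : ℤ, ∑ u ∈ Finset.range Q, h (t + 1 + u) = ∑ u ∈ Finset.range Q, h (t + u) := by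
    intro t
    have h1 : ∑ u ∈ Finset.range (Q + 1), h (t + u) =
        ∑ u ∈ Finset.range Q, h (t + u) + h (t + Q) := by
      rw [Finset.sum_range_succ]
    have h2 : ∑ u ∈ Finset.range (Q + 1), h (t + u) =
        ∑ u ∈ Finset.range Q, h (t + ((u + 1 : ℕ) : ℤ)) + h (t + (0 : ℕ)) := by
      rw [Finset.sum_range_succ']
    have h3 : ∑ u ∈ Finset.range Q, h (t + 1 + u) =
        ∑ u ∈ Finset.range Q, h (t + ((u + 1 : ℕ) : ℤ)) := by
      apply Finset.sum_congr rfl
      intro u _
      congr 1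
      push_cast; ring
    rw [h3]
    rw [hp] at h1
    simp only [Nat.cast_zero, add_zero] at h2
    linarith
  induction t using Int.induction_on with
  | zero => simp
  | succ n ih => rw [step, ih]
  | pred n ih =>
    have := step (-(n : ℤ) - 1)
    rw [show (-(n : ℤ) - 1 + 1) = -(n : ℤ) by ring] at this
    rw [← this, ih]

lemma sum_mul_period {h : ℤ → ℝ} {Q : ℕ} (hp : ∀ x, h (x + Q) = h x) (n : ℕ) :
    ∑ u ∈ Finset.range (n * Q), h u = n * ∑ u ∈ Finset.range Q, h u := by
  induction n with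
  | zero => simp
  | succ n ih =>
    rw [Nat.succ_mul, Finset.sum_range_add, ih]
    have : ∑ x ∈ Finset.range Q, h (((n * Q + x : ℕ)) : ℤ) =
        ∑ u ∈ Finset.range Q, h (((n * Q : ℕ) : ℤ) + u) := by
      apply Finset.sum_congr rfl
      intro u _
      push_cast; ring_nf
    rw [this, sum_shift hp]
    push_cast; ring

/-- The average of the kernel over a period. -/
noncomputable def Fk (k : ℕ) (d : ℤ) : ℝ :=
  (∑ u ∈ Finset.range (q k), b2r (g k (d + u) u)) / q k

lemma g_diag_periodic (k : ℕ) (a b x : ℤ) : g k (a + (x + q k)) (b + (x + q k)) =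
    g k (a + x) (b + x) := by
  have h1 := g_add_mul_left k (a + x) (b + (x + q k)) 1
  have h2 := g_add_mul_right k (a + x) (b + x) 1
  rw [mul_one] at h1 h2
  rw [← add_assoc, h1, ← add_assoc, h2]

lemma Fk_sub (k : ℕ) (m t : ℤ) :
    Fk k (m - t) = (∑ u ∈ Finset.range (q k), b2r (g k (m + u) (t + u))) / q k := by
  unfold Fk
  congr 1
  have := sum_shift (h := fun x => b2r (g k (m - t + x) x)) (Q := q k) (fun x => by
    have := g_diag_periodic k (m - t) 0 x
    simp only [zero_add] at this
    simp only [this]) t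
  rw [← this]
  apply Finset.sum_congr rfl
  intro u _
  ring_nf

lemma Fk_nonneg (k : ℕ) (d : ℤ) : 0 ≤ Fk k d :=
  div_nonneg (Finset.sum_nonneg fun _ _ => b2r_nonneg _) (Nat.cast_nonneg _)

lemma Fk_le_one (k : ℕ) (d : ℤ) : Fk k d ≤ 1 := by
  unfold Fk
  have hq : (0 : ℝ) < q k := by exact_mod_cast q_pos k
  rw [div_le_one hq]
  calc ∑ u ∈ Finset.range (q k), b2r (g k (d + u) u) ≤ ∑ _u ∈ Finset.range (q k), (1 : ℝ) :=
        Finset.sum_le_sum fun _ _ => b2r_le_one _
    _ = q k := by simp

lemma Fk_periodic (k : ℕ) (d : ℤ) : Fk k (d + q k) = Fk k d := by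
  unfold Fk
  congr 1
  apply Finset.sum_congr rfl
  intro u _
  have h := g_add_mul_left k (d + u) u 1
  rw [mul_one] at h
  rw [← h]; congr 2; ring

/-- `Fk k` is also the average over a period of level `k + 1`. -/
lemma Fk_eq_big (k : ℕ) (d : ℤ) :
    Fk k d = (∑ u ∈ Finset.range (q (k + 1)), b2r (g k (d + u) u)) / q (k + 1) := by
  obtain ⟨c, hc⟩ := q_dvd k
  have hqk : (0 : ℝ) < q k := by exact_mod_cast q_pos k
  have hqk1 : (0 : ℝ) < q (k + 1) := by exact_mod_cast q_pos (k + 1)
  have hc0 : (0 : ℝ) < c := by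
    have : 0 < c := by
      rcases Nat.eq_zero_or_pos c with h | h
      · subst h; simp at hc; have := q_pos (k+1); omega
      · exact h
    exact_mod_cast this
  have h := sum_mul_period (h := fun x => b2r (g k (d + x) x)) (Q := q k) (fun x => by
    have := g_diag_periodic k d 0 x
    simp only [zero_add] at this
    simp only [this]) c
  have hcc : q (k + 1) = c * q k := by rw [hc]; ring
  rw [hcc, h]
  unfold Fk
  push_cast
  field_simp

/-! ### Cells -/

lemma cell_far (k : ℕ) (u d : ℤ) (h1 : (p k : ℤ) ≤ d) (h2 : d ≤ 3 * p k) :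
    cell k (d + u) ≠ cell k u := by
  unfold cell
  have hp : (0 : ℤ) < p k := by exact_mod_cast p_pos k
  rw [q_succ]
  push_cast
  set P : ℤ := (p k : ℤ) with hP
  have hr0 := Int.emod_nonneg u (show (4 * P) ≠ 0 by omega)
  have hr1 := Int.emod_lt_of_pos u (show 0 < 4 * P by omega)
  rw [show (d + u) % (4 * P) = (d + u % (4 * P)) % (4 * P) by
    rw [Int.add_emod, Int.add_emod d (u % (4 * P)), Int.emod_emod_of_dvd u (dvd_refl _)]]
  set r := u % (4 * P) with hr
  intro hcon
  by_cases hlt : d + r < 4 * P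
  · rw [Int.emod_eq_of_lt (by omega) hlt] at hcon
    have : r / P + 1 ≤ (d + r) / P := by
      have h3 : (r + P) / P = r / P + 1 := by
        rw [Int.add_ediv_of_dvd_right (dvd_refl P), Int.ediv_self hp.ne']
      rw [← h3]
      exact Int.ediv_le_ediv hp (by omega)
    omega
  · have : (d + r) % (4 * P) = d + r - 4 * P := by
      have h4 : (d + r) % (4 * P) = (d + r - 4 * P) % (4 * P) := by
        rw [Int.sub_emod_right]
      rw [h4, Int.emod_eq_of_lt (by omega) (by omega)]
    rw [this] at hcon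
    have : (d + r - 4 * P) / P + 1 ≤ r / P := by
      have h3 : (d + r - 4 * P + P) / P = (d + r - 4 * P) / P + 1 := by
        rw [Int.add_ediv_of_dvd_right (dvd_refl P), Int.ediv_self hp.ne']
      rw [← h3]
      exact Int.ediv_le_ediv hp (by omega)
    omega

/-- On the middle part of a period the function is constant. -/
lemma Fk_far (k : ℕ) (d : ℤ) (h1 : (p k : ℤ) ≤ d) (h2 : d ≤ 3 * p k) :
    Fk (k + 1) d = b2r (chi k) := by
  unfold Fk
  have hq : (0 : ℝ) < q (k + 1) := by exact_mod_cast q_pos (k + 1)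
  rw [div_eq_iff hq.ne']
  have : ∀ u ∈ Finset.range (q (k + 1)), b2r (g (k + 1) (d + u) u) = b2r (chi k) := by
    intro u _
    rw [g, if_neg (cell_far k u d h1 h2)]
  rw [Finset.sum_congr rfl this]
  simp [mul_comm]

/-- The number of `u` in a period such that `u` and `u + d` are in different cells, as a real. -/
noncomputable def D (k : ℕ) (d : ℤ) : ℝ :=
  ∑ u ∈ Finset.range (q (k + 1)), if cell k (d + u) = cell k u then (0 : ℝ) else 1

lemma D_one (k : ℕ) : D k 1 ≤ 4 := by
  unfold D
  have hite : ∀ u ∈ Finset.range (q (k + 1)),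
      (if cell k (1 + (u : ℤ)) = cell k u then (0 : ℝ) else 1) =
        if ¬ cell k (1 + (u : ℤ)) = cell k u then 1 else 0 := by
    intro u _
    by_cases h : cell k (1 + (u : ℤ)) = cell k u <;> simp [h]
  rw [Finset.sum_congr rfl hite, Finset.sum_boole]
  have hp := p_pos k
  have hsub : (Finset.range (q (k + 1))).filter
      (fun u : ℕ => ¬ cell k (1 + (u : ℤ)) = cell k (u : ℤ)) ⊆
      (Finset.range 4).image (fun j => (j + 1) * p k - 1) := by
    intro u hu
    rw [Finset.mem_filter, Finset.mem_range] at hu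
    obtain ⟨hu1, hu2⟩ := hu
    rw [Finset.mem_image]
    refine ⟨u / p k, ?_, ?_⟩
    · rw [Finset.mem_range]
      rw [q_succ] at hu1
      exact Nat.div_lt_of_lt_mul (by rwa [mul_comm])
    · by_contra hne
      apply hu2
      unfold cell
      rw [q_succ] at hu1 ⊢
      have hdm := Nat.div_add_mod u (p k)
      have hml := Nat.mod_lt u hp
      have h5 : (u / p k + 1) * p k = p k * (u / p k) + p k := by ring
      have h6 : u % p k + 1 < p k := by
        rw [h5] at hne
        omega
      have h7 : u / p k < 4 := Nat.div_lt_of_lt_mul (by rwa [mul_comm])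
      have h8 : p k * (u / p k) ≤ p k * 3 := Nat.mul_le_mul_left _ (by omega)
      have h9 : u + 1 < 4 * p k := by omega
      have e1 : (1 + (u : ℤ)) % ((4 * p k : ℕ) : ℤ) = ((u + 1 : ℕ) : ℤ) := by
        rw [Int.emod_eq_of_lt (by positivity) (by push_cast; omega)]
        push_cast; ring
      have e2 : (u : ℤ) % ((4 * p k : ℕ) : ℤ) = (u : ℤ) :=
        Int.emod_eq_of_lt (by positivity) (by exact_mod_cast hu1)
      rw [e1, e2]
      norm_cast
      have h10 : (u + 1) = p k * (u / p k) + (u % p k + 1) := by omega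
      rw [h10, Nat.mul_add_div hp, Nat.div_eq_of_lt h6]
      simp
  calc (((Finset.range (q (k + 1))).filter
      (fun u : ℕ => ¬ cell k (1 + (u : ℤ)) = cell k (u : ℤ))).card : ℝ)
      ≤ (((Finset.range 4).image (fun j => (j + 1) * p k - 1)).card : ℝ) := by
        exact_mod_cast Finset.card_le_card hsub
    _ ≤ ((Finset.range 4).card : ℝ) := by exact_mod_cast Finset.card_image_le
    _ = 4 := by simp

lemma D_le (k : ℕ) (d : ℕ) : D k d ≤ 4 * d := by
  induction d with
  | zero => simp [D]
  | succ d ih =>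
    have h1 : D k ((d + 1 : ℕ) : ℤ) ≤ D k d + D k 1 := by
      have e : D k 1 = ∑ u ∈ Finset.range (q (k + 1)),
          if cell k (1 + ((d : ℤ) + u)) = cell k ((d : ℤ) + u) then (0 : ℝ) else 1 := by
        unfold D
        symm
        apply sum_shift (h := fun x => if cell k (1 + x) = cell k x then (0 : ℝ) else 1)
        intro x
        have a1 := cell_add_mul k (1 + x) 1
        have a2 := cell_add_mul k x 1
        rw [mul_one] at a1 a2
        simp only [← add_assoc, a1, a2]
      rw [e]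
      unfold D
      rw [← Finset.sum_add_distrib]
      apply Finset.sum_le_sum
      intro u _
      have e2 : ((d + 1 : ℕ) : ℤ) + u = 1 + ((d : ℤ) + u) := by push_cast; ring
      rw [e2]
      by_cases a : cell k (1 + ((d : ℤ) + u)) = cell k u
      · rw [if_pos a]
        exact add_nonneg (by split_ifs <;> norm_num) (by split_ifs <;> norm_num)
      · rw [if_neg a]
        by_cases b : cell k ((d : ℤ) + u) = cell k u
        · rw [if_pos b, if_neg (by rw [b]; exact a)]; norm_num
        · rw [if_neg b]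
          have : (0 : ℝ) ≤ if cell k (1 + ((d : ℤ) + u)) = cell k ((d : ℤ) + u) then (0 : ℝ)
            else 1 := by split_ifs <;> norm_num
          linarith
    have h2 := D_one k
    push_cast at h1 ⊢
    linarith

lemma Fk_step (k : ℕ) (d : ℕ) : |Fk (k + 1) d - Fk k d| ≤ d / p k := by
  have hq : (0 : ℝ) < q (k + 1) := by exact_mod_cast q_pos (k + 1)
  have hp : (0 : ℝ) < p k := by exact_mod_cast p_pos k
  rw [Fk_eq_big k d, Fk, ← sub_div, abs_div, abs_of_pos hq, div_le_div_iff₀ hq hp,
    ← Finset.sum_sub_distrib]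
  have h1 : |∑ u ∈ Finset.range (q (k + 1)), (b2r (g (k + 1) (d + u) u) - b2r (g k (d + u) u))| ≤
      D k d := by
    refine (Finset.abs_sum_le_sum_abs _ _).trans ?_
    unfold D
    apply Finset.sum_le_sum
    intro u _
    rw [g]
    split_ifs with h
    · simp
    · exact abs_b2r_sub _ _
  have h2 := D_le k d
  have h3 : (q (k + 1) : ℝ) = 4 * p k := by exact_mod_cast q_succ k
  rw [h3]
  nlinarith

lemma Fk_dist (k j : ℕ) (d : ℕ) : |Fk (k + j) d - Fk k d| ≤ 2 * d / p k - 2 * d / p (k + j) := by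
  induction j with
  | zero => simp
  | succ j ih =>
    have h1 := Fk_step (k + j) d
    have hp : (0 : ℝ) < p (k + j) := by exact_mod_cast p_pos (k + j)
    have hp' : (0 : ℝ) < p (k + j + 1) := by exact_mod_cast p_pos (k + j + 1)
    have h2 : (2 : ℝ) * d / p (k + j + 1) ≤ d / p (k + j) := by
      rw [div_le_div_iff₀ hp' hp]
      have : (2 : ℝ) * p (k + j) ≤ p (k + j + 1) := by exact_mod_cast p_succ_ge (k + j)
      have hd : (0 : ℝ) ≤ d := Nat.cast_nonneg d
      nlinarith
    have h3 : |Fk (k + (j + 1)) d - Fk k d| ≤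
        |Fk (k + j + 1) d - Fk (k + j) d| + |Fk (k + j) d - Fk k d| := by
      have := abs_sub_le (Fk (k + (j + 1)) d) (Fk (k + j) d) (Fk k d)
      exact this
    have h4 : (2 : ℝ) * d / p (k + j) = d / p (k + j) + d / p (k + j) := by ring
    rw [← add_assoc]
    rw [← add_assoc] at h3
    linarith

lemma exists_lim (d : ℕ) : ∃ l : ℝ, Tendsto (fun k => Fk k d) atTop (𝓝 l) := by
  apply cauchySeq_tendsto_of_complete
  rw [Metric.cauchySeq_iff']
  intro ε hε
  have hlim : Tendsto (fun k : ℕ => 2 * (d : ℝ) / p k) atTop (𝓝 0) := by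
    have h1 : Tendsto (fun k : ℕ => (p k : ℝ)) atTop atTop := by
      apply tendsto_atTop_mono (f := fun k : ℕ => ((2 : ℝ) ^ k))
      · intro k; exact_mod_cast two_pow_le_p k
      · exact tendsto_pow_atTop_atTop_of_one_lt (by norm_num)
    exact h1.const_div_atTop _
  obtain ⟨K, hK⟩ := (hlim.eventually (gt_mem_nhds hε)).exists
  refine ⟨K, fun n hn => ?_⟩
  obtain ⟨j, rfl⟩ := Nat.exists_eq_add_of_le hn
  have := Fk_dist K j d
  have hp' : (0 : ℝ) ≤ 2 * (d : ℝ) / p (K + j) := by positivity
  rw [Real.dist_eq]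
  linarith

/-- The limit function. -/
noncomputable def F (d : ℕ) : ℝ := (exists_lim d).choose

lemma tendsto_F (d : ℕ) : Tendsto (fun k => Fk k d) atTop (𝓝 (F d)) := (exists_lim d).choose_spec

lemma F_nonneg (d : ℕ) : 0 ≤ F d := ge_of_tendsto' (tendsto_F d) fun k => Fk_nonneg k d

lemma F_le_one (d : ℕ) : F d ≤ 1 := le_of_tendsto' (tendsto_F d) fun k => Fk_le_one k d

lemma F_approx (k : ℕ) (d : ℕ) : |F d - Fk k d| ≤ 2 * d / p k := by
  have h1 : Tendsto (fun j => |Fk (k + j) d - Fk k d|) atTop (𝓝 |F d - Fk k d|) := by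
    apply Tendsto.abs
    apply Tendsto.sub_const
    have := tendsto_F d
    have h2 : Tendsto (fun j => k + j) atTop atTop := by
      simp_rw [add_comm k]
      exact tendsto_add_atTop_nat k
    exact this.comp h2
  refine le_of_tendsto' h1 fun j => ?_
  have := Fk_dist k j d
  have hp' : (0 : ℝ) ≤ 2 * (d : ℝ) / p (k + j) := by positivity
  linarith

lemma tendsto_two_pow : Tendsto (fun k : ℕ => (1 : ℝ) / 2 ^ k) atTop (𝓝 0) := by
  have : Tendsto (fun k : ℕ => ((2 : ℝ) ^ k)) atTop atTop :=
    tendsto_pow_atTop_atTop_of_one_lt (by norm_num)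
  exact this.const_div_atTop _

lemma q_div_p (k : ℕ) : (q k : ℝ) / p k ≤ 1 / 2 ^ k := by
  have hq : (0 : ℝ) < q k := by exact_mod_cast q_pos k
  have : (p k : ℝ) = 2 ^ (k + 2) * q k := by unfold p; push_cast; ring
  rw [this, div_le_div_iff₀ (by positivity) (by positivity), pow_add]
  nlinarith [hq, pow_pos (show (0:ℝ) < 2 by norm_num) k,
    mul_pos hq (pow_pos (show (0:ℝ) < 2 by norm_num) k)]

/-- `F` is recurrent. -/
lemma F_recurrent (d : ℕ) : Tendsto (fun k => F (d + q k)) atTop (𝓝 (F d)) := by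
  rw [tendsto_iff_dist_tendsto_zero]
  have hb : ∀ k, dist (F (d + q k)) (F d) ≤ (4 * d + 2) * (1 / 2 ^ k) := by
    intro k
    have h1 := F_approx k (d + q k)
    have h2 := F_approx k d
    have h3 : Fk k ((d + q k : ℕ) : ℤ) = Fk k d := by
      push_cast; exact Fk_periodic k d
    rw [h3] at h1
    have hp : (0 : ℝ) < p k := by exact_mod_cast p_pos k
    have h4 : (1 : ℝ) / p k ≤ 1 / 2 ^ k := by
      apply one_div_le_one_div_of_le (by positivity)
      exact_mod_cast two_pow_le_p k
    have h5 := q_div_p k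
    have h6 : |F (d + q k) - F d| ≤ 2 * ((d + q k : ℕ) : ℝ) / p k + 2 * d / p k := by
      have := abs_sub_le (F (d + q k)) (Fk k d) (F d)
      rw [abs_sub_comm (Fk k d) (F d)] at this
      linarith
    rw [Real.dist_eq]
    refine h6.trans ?_
    have e : 2 * ((d + q k : ℕ) : ℝ) / p k + 2 * d / p k =
        4 * d * (1 / p k) + 2 * ((q k : ℝ) / p k) := by push_cast; ring
    rw [e]
    have hd : (0 : ℝ) ≤ d := Nat.cast_nonneg d
    nlinarith [mul_le_mul_of_nonneg_left h4 hd]
  refine squeeze_zero (fun _ => dist_nonneg) hb ?_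
  have := tendsto_two_pow.const_mul (4 * (d : ℝ) + 2)
  rwa [mul_zero] at this

/-- `F` is nearly constant on long intervals. -/
lemma F_far (k : ℕ) (d : ℕ) (h1 : p k ≤ d) (h2 : d ≤ 3 * p k) :
    |F d - b2r (chi k)| ≤ 2 * (1 / 2 ^ (k + 1)) := by
  have h3 := F_approx (k + 1) d
  rw [Fk_far k d (by exact_mod_cast h1) (by exact_mod_cast h2)] at h3
  refine h3.trans ?_
  have h4 := q_div_p (k + 1)
  have hp : (0 : ℝ) < p (k + 1) := by exact_mod_cast p_pos (k + 1)
  have h5 : (d : ℝ) ≤ q (k + 1) := by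
    have : d ≤ q (k + 1) := by rw [q_succ]; omega
    exact_mod_cast this
  calc 2 * (d : ℝ) / p (k + 1) ≤ 2 * q (k + 1) / p (k + 1) := by gcongr
    _ = 2 * ((q (k + 1) : ℝ) / p (k + 1)) := by ring
    _ ≤ _ := by linarith

end Pool.Agent.U605.Null
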