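import Pool.Agent.U605.NullA

/-!
# Counting: the tree kernel has few traces and averages of such kernels have small covering numbers
-/

set_option autoImplicit false

open Filter Topology

namespace Pool.Agent.U605.Null

/-! ### The tree lemma -/

lemma tree (k : ℕ) : ∀ B : Finset ℤ, B.Nonempty → ∃ S : Finset (ℤ → Bool),
    S.card + 2 ≤ 4 * B.card ∧ (∀ b : Bool, ∃ s ∈ S, ∀ t ∈ B, s t = b) ∧
    ∀ m : ℤ, ∃ s ∈ S, ∀ t ∈ B, g k m t = s t := by
  classical
  induction k with
  | zero =>
    intro B hB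
    refine ⟨{fun _ => false, fun _ => true}, ?_, ?_, ?_⟩
    · have h1 := hB.card_pos
      have h2 : ({fun _ => false, fun _ => true} : Finset (ℤ → Bool)).card ≤ 2 :=
        Finset.card_le_two
      omega
    · intro b
      cases b
      · exact ⟨fun _ => false, by simp, fun _ _ => rfl⟩
      · exact ⟨fun _ => true, by simp, fun _ _ => rfl⟩
    · intro m
      exact ⟨fun _ => false, by simp, fun _ _ => rfl⟩
  | succ k ih =>
    intro B hB
    by_cases hone : (B.image (cell k)).card ≤ 1
    · -- all points are in the same cell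
      obtain ⟨t0, ht0⟩ := hB
      have hc : ∀ t ∈ B, cell k t = cell k t0 := by
        intro t ht
        exact Finset.card_le_one.1 hone _ (Finset.mem_image_of_mem _ ht) _
          (Finset.mem_image_of_mem _ ht0)
      obtain ⟨S, h1, h2, h3⟩ := ih B ⟨t0, ht0⟩
      refine ⟨S, h1, h2, fun m => ?_⟩
      by_cases hm : cell k m = cell k t0
      · obtain ⟨s, hs, hs2⟩ := h3 m
        refine ⟨s, hs, fun t ht => ?_⟩
        rw [g, if_pos (hm.trans (hc t ht).symm)]
        exact hs2 t ht
      · obtain ⟨s, hs, hs2⟩ := h2 (chi k)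
        refine ⟨s, hs, fun t ht => ?_⟩
        rw [g, if_neg (fun h => hm (h.trans (hc t ht)))]
        exact (hs2 t ht).symm
    · rw [not_le] at hone
      have hblock : ∀ i ∈ B.image (cell k), (B.filter (fun t => cell k t = i)).Nonempty := by
        intro i hi
        obtain ⟨t, ht, hti⟩ := Finset.mem_image.1 hi
        exact ⟨t, Finset.mem_filter.2 ⟨ht, hti⟩⟩
      have hex : ∀ i : ℤ, ∃ S : Finset (ℤ → Bool), i ∈ B.image (cell k) →
          (S.card + 2 ≤ 4 * (B.filter (fun t => cell k t = i)).card ∧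
          (∀ b : Bool, ∃ s ∈ S, ∀ t ∈ (B.filter (fun t => cell k t = i)), s t = b) ∧
          ∀ m : ℤ, ∃ s ∈ S, ∀ t ∈ (B.filter (fun t => cell k t = i)), g k m t = s t) := by
        intro i
        by_cases hi : i ∈ B.image (cell k)
        · obtain ⟨S, hS⟩ := ih _ (hblock i hi)
          exact ⟨S, fun _ => hS⟩
        · exact ⟨∅, fun h => absurd h hi⟩
      choose S hS using hex
      refine ⟨{fun _ => false, fun _ => true} ∪ (B.image (cell k)).biUnion
        (fun i => (S i).image (fun s t => if cell k t = i then s t else chi k)), ?_, ?_, ?_⟩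
      · have h1 : ({fun _ => false, fun _ => true} : Finset (ℤ → Bool)).card ≤ 2 :=
          Finset.card_le_two
        have h2 : ((B.image (cell k)).biUnion
            (fun i => (S i).image (fun s t => if cell k t = i then s t else chi k))).card ≤
            ∑ i ∈ B.image (cell k), (S i).card :=
          Finset.card_biUnion_le.trans (Finset.sum_le_sum fun i _ => Finset.card_image_le)
        have h3 : ∑ i ∈ B.image (cell k), ((S i).card + 2) ≤
            ∑ i ∈ B.image (cell k), 4 * (B.filter (fun t => cell k t = i)).card :=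
          Finset.sum_le_sum fun i hi => (hS i hi).1
        have h4 : ∑ i ∈ B.image (cell k), (B.filter (fun t => cell k t = i)).card = B.card :=
          (Finset.card_eq_sum_card_image (cell k) B).symm
        rw [Finset.sum_add_distrib, ← Finset.mul_sum, h4, Finset.sum_const, smul_eq_mul] at h3
        have h5 := Finset.card_union_le ({fun _ => false, fun _ => true} : Finset (ℤ → Bool))
          ((B.image (cell k)).biUnion
            (fun i => (S i).image (fun s t => if cell k t = i then s t else chi k)))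
        omega
      · intro b
        cases b
        · exact ⟨fun _ => false, by simp, fun _ _ => rfl⟩
        · exact ⟨fun _ => true, by simp, fun _ _ => rfl⟩
      · intro m
        by_cases hm : cell k m ∈ B.image (cell k)
        · obtain ⟨s, hs, hs2⟩ := (hS _ hm).2.2 m
          refine ⟨fun t => if cell k t = cell k m then s t else chi k, ?_, ?_⟩
          · apply Finset.mem_union_right
            rw [Finset.mem_biUnion]
            exact ⟨cell k m, hm, Finset.mem_image.2 ⟨s, hs, rfl⟩⟩
          · intro t ht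
            by_cases h : cell k t = cell k m
            · rw [g, if_pos h.symm]
              simp only [h, if_true]
              exact hs2 t (Finset.mem_filter.2 ⟨ht, h⟩)
            · rw [g, if_neg (fun h' => h h'.symm)]
              simp only [h, if_false]
        · refine ⟨fun _ => chi k, ?_, ?_⟩
          · apply Finset.mem_union_left
            rcases hchi : chi k with _ | _ <;> simp
          · intro t ht
            rw [g, if_neg]
            intro h
            exact hm (h ▸ Finset.mem_image_of_mem _ ht)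

/-! ### Chernoff's bound for finite averages -/

lemma exp_le_quad {y : ℝ} (h : |y| ≤ 1) : Real.exp y ≤ 1 + y + y ^ 2 := by
  have := Real.abs_exp_sub_one_sub_id_le h
  have := (abs_le.1 this).2
  linarith

/-- One-sided Chernoff bound. -/
lemma chernoff {Ω : Type*} [Fintype Ω] (L : ℕ) (Y : Ω → ℝ) (hY : ∀ ω, |Y ω| ≤ 1)
    (hsum : ∑ ω, Y ω = 0) {η : ℝ} (h0 : 0 ≤ η) (h1 : η ≤ 2) :
    (Nat.card {U : Fin L → Ω // L * η ≤ ∑ l, Y (U l)} : ℝ) ≤
      (Fintype.card Ω : ℝ) ^ L * Real.exp (-(L * η ^ 2 / 4)) := by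
  classical
  set lam : ℝ := η / 2 with hlam
  have hlam0 : 0 ≤ lam := by positivity
  have hlam1 : lam ≤ 1 := by rw [hlam]; linarith
  have key : ∑ U : Fin L → Ω, Real.exp (lam * ∑ l, Y (U l)) ≤
      ((Fintype.card Ω : ℝ) * Real.exp (lam ^ 2)) ^ L := by
    have e1 : ∀ U : Fin L → Ω, Real.exp (lam * ∑ l, Y (U l)) = ∏ l, Real.exp (lam * Y (U l)) := by
      intro U
      rw [Finset.mul_sum, Real.exp_sum]
    simp_rw [e1]
    rw [← Fintype.sum_pow (fun ω => Real.exp (lam * Y ω)) L]
    apply pow_le_pow_left₀ (Finset.sum_nonneg fun _ _ => (Real.exp_pos _).le)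
    calc ∑ ω, Real.exp (lam * Y ω) ≤ ∑ ω, (1 + lam * Y ω + lam ^ 2) := by
          apply Finset.sum_le_sum
          intro ω _
          have hab : |lam * Y ω| ≤ 1 := by
            rw [abs_mul, abs_of_nonneg hlam0]
            have := hY ω
            nlinarith [abs_nonneg (Y ω)]
          refine (exp_le_quad hab).trans ?_
          have hsq : (Y ω) ^ 2 ≤ 1 := by
            have := hY ω
            rw [← sq_abs]
            nlinarith [abs_nonneg (Y ω)]
          nlinarith [sq_nonneg lam]
      _ = (Fintype.card Ω : ℝ) * (1 + lam ^ 2) := by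
          rw [Finset.sum_add_distrib, Finset.sum_add_distrib, ← Finset.mul_sum, hsum]
          simp
          ring
      _ ≤ _ := by
          apply mul_le_mul_of_nonneg_left _ (Nat.cast_nonneg _)
          have := Real.add_one_le_exp (lam ^ 2)
          linarith
  have markov : (Nat.card {U : Fin L → Ω // L * η ≤ ∑ l, Y (U l)} : ℝ) *
      Real.exp (lam * (L * η)) ≤ ∑ U : Fin L → Ω, Real.exp (lam * ∑ l, Y (U l)) := by
    rw [Nat.card_eq_fintype_card, Fintype.card_subtype]
    rw [← nsmul_eq_mul, ← Finset.sum_const]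
    refine le_trans ?_ (Finset.sum_le_univ_sum_of_nonneg
      (s := Finset.univ.filter (fun U : Fin L → Ω => L * η ≤ ∑ l, Y (U l)))
      (fun U => (Real.exp_pos _).le))
    apply Finset.sum_le_sum
    intro U hU
    rw [Finset.mem_filter] at hU
    exact Real.exp_le_exp.2 (mul_le_mul_of_nonneg_left hU.2 hlam0)
  have h2 := markov.trans key
  rw [mul_pow, ← Real.exp_nat_mul] at h2
  have h3 : Real.exp (lam * (L * η)) * Real.exp (-(L * η ^ 2 / 4)) = Real.exp (L * lam ^ 2) := by
    rw [← Real.exp_add]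
    congr 1
    rw [hlam]; ring
  have h4 : 0 < Real.exp (lam * (L * η)) := Real.exp_pos _
  rw [← mul_le_mul_iff_left₀ h4]
  calc _ ≤ _ := h2
    _ = (Fintype.card Ω : ℝ) ^ L * (Real.exp (lam * (L * η)) * Real.exp (-(L * η ^ 2 / 4))) := by
        rw [h3]
    _ = _ := by ring

/-- Two-sided Chernoff bound for the number of bad samples. -/
lemma chernoff_two {Ω : Type*} [Fintype Ω] (L : ℕ) (Y : Ω → ℝ) (hY : ∀ ω, |Y ω| ≤ 1)
    (hsum : ∑ ω, Y ω = 0) {η : ℝ} (h0 : 0 ≤ η) (h1 : η ≤ 2) :
    (Nat.card {U : Fin L → Ω // L * η ≤ |∑ l, Y (U l)|} : ℝ) ≤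
      (Fintype.card Ω : ℝ) ^ L * (2 * Real.exp (-(L * η ^ 2 / 4))) := by
  classical
  have a1 := chernoff L Y hY hsum h0 h1
  have a2 := chernoff L (fun ω => - Y ω) (fun ω => by rw [abs_neg]; exact hY ω)
    (by rw [Finset.sum_neg_distrib, hsum, neg_zero]) h0 h1
  rw [Nat.card_eq_fintype_card, Fintype.card_subtype] at a1 a2 ⊢
  have hsub : Finset.univ.filter (fun U : Fin L → Ω => L * η ≤ |∑ l, Y (U l)|) ⊆
      Finset.univ.filter (fun U : Fin L → Ω => L * η ≤ ∑ l, Y (U l)) ∪
      Finset.univ.filter (fun U : Fin L → Ω => L * η ≤ ∑ l, - Y (U l)) := by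
    intro U hU
    rw [Finset.mem_filter] at hU
    rw [Finset.mem_union, Finset.mem_filter, Finset.mem_filter]
    rcases le_abs.1 hU.2 with h | h
    · left; exact ⟨Finset.mem_univ _, h⟩
    · right; refine ⟨Finset.mem_univ _, ?_⟩
      rw [Finset.sum_neg_distrib]; exact h
  have h3 := (Finset.card_le_card hsub).trans (Finset.card_union_le _ _)
  have h4 : ((Finset.univ.filter (fun U : Fin L → Ω => L * η ≤ |∑ l, Y (U l)|)).card : ℝ) ≤
      ((Finset.univ.filter (fun U : Fin L → Ω => L * η ≤ ∑ l, Y (U l))).card : ℝ) +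
      ((Finset.univ.filter (fun U : Fin L → Ω => L * η ≤ ∑ l, - Y (U l))).card : ℝ) := by
    exact_mod_cast h3
  linarith

/-! ### The sampling lemma -/

lemma sampling {Ω α β : Type*} [Fintype Ω] [Nonempty Ω] [DecidableEq α] (M : Finset α)
    (C : Finset β) (G : Ω → α → β → Bool) (P L : ℕ)
    (htr : ∀ ω, ∃ S : Finset (β → Bool), S.card ≤ P ∧ ∀ m ∈ M, ∃ s ∈ S, ∀ c ∈ C, G ω m c = s c)
    {η : ℝ} (h0 : 0 < η) (h1 : η ≤ 2)
    (hL : (C.card : ℝ) * (2 * Real.exp (-(L * η ^ 2 / 4))) ≤ 1 / 2)
    (hsep : ∀ m ∈ M, ∀ m' ∈ M, m ≠ m' → ∃ c ∈ C,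
      2 * η ≤ |(∑ ω, b2r (G ω m c)) / Fintype.card Ω - (∑ ω, b2r (G ω m' c)) / Fintype.card Ω|) :
    (M.card : ℝ) ≤ 2 * (P : ℝ) ^ L := by
  classical
  have hL0 : 0 < L ∨ C = ∅ := by
    by_contra hcon
    push Not at hcon
    have hl : L = 0 := by omega
    rw [hl] at hL
    simp only [Nat.cast_zero, zero_mul, zero_div, neg_zero, Real.exp_zero, mul_one] at hL
    have : (1 : ℝ) ≤ C.card := by
      exact_mod_cast hcon.2.card_pos
    linarith
  choose S hS1 hS2 using htr
  set W : ℝ := (Fintype.card Ω : ℝ) with hW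
  have hWpos : 0 < W := by rw [hW]; exact_mod_cast Fintype.card_pos
  set Φ : α → β → ℝ := fun m c => (∑ ω, b2r (G ω m c)) / W with hΦ
  -- bad pairs
  let bad : (Fin L → Ω) → α → Prop := fun U m =>
    ∃ c ∈ C, L * η ≤ |∑ l, (b2r (G (U l) m c) - Φ m c)|
  have hΦ01 : ∀ m c, 0 ≤ Φ m c ∧ Φ m c ≤ 1 := by
    intro m c
    constructor
    · exact div_nonneg (Finset.sum_nonneg fun _ _ => b2r_nonneg _) hWpos.le
    · rw [hΦ]
      simp only
      rw [div_le_one hWpos]
      calc ∑ ω, b2r (G ω m c) ≤ ∑ _ω : Ω, (1 : ℝ) := Finset.sum_le_sum fun _ _ => b2r_le_one _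
        _ = W := by simp [hW]
  have hbad1 : ∀ m ∈ M, (((Finset.univ.filter (fun U => bad U m)).card : ℕ) : ℝ) ≤
      W ^ L * (1 / 2) := by
    intro m _
    have hsub : Finset.univ.filter (fun U => bad U m) ⊆ C.biUnion (fun c =>
        Finset.univ.filter (fun U : Fin L → Ω => L * η ≤ |∑ l, (b2r (G (U l) m c) - Φ m c)|)) := by
      intro U hU
      rw [Finset.mem_filter] at hU
      obtain ⟨c, hc, hc2⟩ := hU.2
      rw [Finset.mem_biUnion]
      exact ⟨c, hc, Finset.mem_filter.2 ⟨Finset.mem_univ _, hc2⟩⟩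
    have h2 : (((Finset.univ.filter (fun U => bad U m)).card : ℕ) : ℝ) ≤ ∑ c ∈ C,
        (((Finset.univ.filter (fun U : Fin L → Ω =>
          L * η ≤ |∑ l, (b2r (G (U l) m c) - Φ m c)|)).card : ℕ) : ℝ) := by
      exact_mod_cast (Finset.card_le_card hsub).trans Finset.card_biUnion_le
    have h3 : ∀ c ∈ C, (((Finset.univ.filter (fun U : Fin L → Ω =>
          L * η ≤ |∑ l, (b2r (G (U l) m c) - Φ m c)|)).card : ℕ) : ℝ) ≤
          W ^ L * (2 * Real.exp (-(L * η ^ 2 / 4))) := by
      intro c _
      have := chernoff_two L (fun ω => b2r (G ω m c) - Φ m c) (fun ω => by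
        have := hΦ01 m c
        have a := b2r_nonneg (G ω m c)
        have b := b2r_le_one (G ω m c)
        rw [abs_le]; constructor <;> linarith) (by
        rw [Finset.sum_sub_distrib, hΦ]
        simp only [Finset.sum_const, nsmul_eq_mul, Finset.card_univ]
        rw [← hW]
        field_simp
        ring) h0.le h1
      rwa [Nat.card_eq_fintype_card, Fintype.card_subtype] at this
    calc _ ≤ _ := h2
      _ ≤ ∑ _c ∈ C, W ^ L * (2 * Real.exp (-(L * η ^ 2 / 4))) := Finset.sum_le_sum h3
      _ = W ^ L * (C.card * (2 * Real.exp (-(L * η ^ 2 / 4)))) := by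
          rw [Finset.sum_const, nsmul_eq_mul]; ring
      _ ≤ _ := mul_le_mul_of_nonneg_left hL (by positivity)
  -- double counting
  have hdc : ∑ U : Fin L → Ω, ((M.filter (fun m => bad U m)).card : ℝ) ≤
      ∑ _U : Fin L → Ω, (M.card : ℝ) * (1 / 2) := by
    have e1 : ∑ U : Fin L → Ω, ((M.filter (fun m => bad U m)).card : ℝ) =
        ∑ m ∈ M, (((Finset.univ.filter (fun U => bad U m)).card : ℕ) : ℝ) := by
      have : ∀ U : Fin L → Ω, ((M.filter (fun m => bad U m)).card : ℝ) =
          ∑ m ∈ M, if bad U m then (1 : ℝ) else 0 := by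
        intro U; rw [Finset.sum_boole]
      simp_rw [this]
      rw [Finset.sum_comm]
      apply Finset.sum_congr rfl
      intro m _
      rw [Finset.sum_boole]
    rw [e1]
    calc _ ≤ ∑ _m ∈ M, W ^ L * (1 / 2) := Finset.sum_le_sum hbad1
      _ = M.card * (W ^ L * (1 / 2)) := by rw [Finset.sum_const, nsmul_eq_mul]
      _ = _ := by
          rw [Finset.sum_const, nsmul_eq_mul, Finset.card_univ, Fintype.card_fun, Fintype.card_fin]
          push_cast
          rw [hW]; ring
  obtain ⟨U, -, hU⟩ := Finset.exists_le_of_sum_le (s := (Finset.univ : Finset (Fin L → Ω)))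
    Finset.univ_nonempty hdc
  -- the good ones are determined by the traces
  have hcardsplit : (M.filter (fun m => bad U m)).card + (M.filter (fun m => ¬ bad U m)).card =
      M.card := Finset.card_filter_add_card_filter_not _
  have hgood : (M.filter (fun m => ¬ bad U m)).card ≤ P ^ L := by
    have hch : ∀ m : α, ∃ σ : Fin L → (β → Bool), m ∈ M → (∀ l, σ l ∈ S (U l) ∧
        ∀ c ∈ C, G (U l) m c = σ l c) := by
      intro m
      by_cases hm : m ∈ M
      · choose σ hσ using fun l => hS2 (U l) m hm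
        exact ⟨σ, fun _ l => hσ l⟩
      · exact ⟨fun _ _ => false, fun h => absurd h hm⟩
    choose σ hσ using hch
    calc (M.filter (fun m => ¬ bad U m)).card ≤ (Fintype.piFinset fun l => S (U l)).card := by
          apply Finset.card_le_card_of_injOn σ
          · intro m hm
            rw [Finset.mem_coe, Finset.mem_filter] at hm
            rw [Finset.mem_coe, Fintype.mem_piFinset]
            exact fun l => (hσ m hm.1 l).1
          · intro m hm m' hm' heq
            rw [Finset.mem_coe, Finset.mem_filter] at hm hm'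
            by_contra hne
            obtain ⟨c, hc, hc2⟩ := hsep m hm.1 m' hm'.1 hne
            have b1 : ¬ L * η ≤ |∑ l, (b2r (G (U l) m c) - Φ m c)| := fun h => hm.2 ⟨c, hc, h⟩
            have b2 : ¬ L * η ≤ |∑ l, (b2r (G (U l) m' c) - Φ m' c)| := fun h => hm'.2 ⟨c, hc, h⟩
            rw [not_le] at b1 b2
            have e : ∑ l, (b2r (G (U l) m c) - Φ m c) - ∑ l, (b2r (G (U l) m' c) - Φ m' c) =
                L * (Φ m' c - Φ m c) := by
              rw [← Finset.sum_sub_distrib]
              have : ∀ l ∈ (Finset.univ : Finset (Fin L)), b2r (G (U l) m c) - Φ m c -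
                  (b2r (G (U l) m' c) - Φ m' c) = Φ m' c - Φ m c := by
                intro l _
                have : G (U l) m c = G (U l) m' c := by
                  rw [(hσ m hm.1 l).2 c hc, (hσ m' hm'.1 l).2 c hc, heq]
                rw [this]; ring
              rw [Finset.sum_congr rfl this]
              simp
              ring
            have hLpos : 0 < L := by
              rcases hL0 with h | h
              · exact h
              · rw [h] at hc; simp at hc
            have hLr : (0 : ℝ) < L := by exact_mod_cast hLpos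
            have h5 : |L * (Φ m' c - Φ m c)| < 2 * (L * η) := by
              rw [← e]
              have := abs_sub (∑ l, (b2r (G (U l) m c) - Φ m c))
                (∑ l, (b2r (G (U l) m' c) - Φ m' c))
              linarith
            rw [abs_mul, abs_of_pos hLr, abs_sub_comm] at h5
            have h6 : |Φ m c - Φ m' c| < 2 * η := by
              by_contra h7
              rw [not_lt] at h7
              nlinarith
            exact absurd hc2 (not_le.2 h6)
      _ = ∏ l, (S (U l)).card := Fintype.card_piFinset _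
      _ ≤ ∏ _l : Fin L, P := Finset.prod_le_prod' fun l _ => hS1 (U l)
      _ = P ^ L := by simp
  have h8 : ((M.filter (fun m => bad U m)).card : ℝ) +
      ((M.filter (fun m => ¬ bad U m)).card : ℝ) = M.card := by exact_mod_cast hcardsplit
  have h9 : ((M.filter (fun m => ¬ bad U m)).card : ℝ) ≤ (P : ℝ) ^ L := by exact_mod_cast hgood
  linarith

/-- Separated sets of translates of `Fk k` are small. -/
lemma card_bound (k L : ℕ) (M : Finset ℕ) (C : Finset ℕ) (hC : C.Nonempty) {η : ℝ} (h0 : 0 < η)
    (h1 : η ≤ 2) (hL : (C.card : ℝ) * (2 * Real.exp (-(L * η ^ 2 / 4))) ≤ 1 / 2)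
    (hsep : ∀ m ∈ M, ∀ m' ∈ M, m ≠ m' → ∃ c ∈ C,
      2 * η ≤ |Fk k ((m + c : ℕ) : ℤ) - Fk k ((m' + c : ℕ) : ℤ)|) :
    (M.card : ℝ) ≤ 2 * (4 * C.card : ℝ) ^ L := by
  classical
  have hq := q_pos k
  have : Nonempty (Fin (q k)) := ⟨⟨0, hq⟩⟩
  have key : ∀ m c : ℕ, Fk k ((m + c : ℕ) : ℤ) =
      (∑ ω : Fin (q k), b2r (g k ((m : ℤ) + (ω : ℕ)) (-(c : ℤ) + (ω : ℕ)))) /
        Fintype.card (Fin (q k)) := by
    intro m c
    have h := Fk_sub k m (-(c : ℤ))
    rw [show ((m + c : ℕ) : ℤ) = (m : ℤ) - (-(c : ℤ)) by push_cast; ring, h, Fintype.card_fin]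
    congr 1
    rw [Finset.sum_range]
  have := sampling (Ω := Fin (q k)) M C
    (fun ω m c => g k ((m : ℤ) + (ω : ℕ)) (-(c : ℤ) + (ω : ℕ))) (4 * C.card) L ?_ h0 h1 hL ?_
  · push_cast at this
    exact this
  · intro ω
    obtain ⟨S, hS1, -, hS2⟩ := tree k (C.image (fun c : ℕ => -(c : ℤ) + (ω : ℕ)))
      (hC.image _)
    refine ⟨S.image (fun s c => s (-(c : ℤ) + (ω : ℕ))), ?_, ?_⟩
    · have h2 : (C.image (fun c : ℕ => -(c : ℤ) + (ω : ℕ))).card ≤ C.card := Finset.card_image_le
      have h3 : (S.image (fun (s : ℤ → Bool) (c : ℕ) => s (-(c : ℤ) + (ω : ℕ)))).card ≤ S.card :=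
        Finset.card_image_le
      omega
    · intro m _
      obtain ⟨s, hs, hs2⟩ := hS2 ((m : ℤ) + (ω : ℕ))
      refine ⟨fun c => s (-(c : ℤ) + (ω : ℕ)), Finset.mem_image_of_mem _ hs, ?_⟩
      intro c hc
      exact hs2 _ (Finset.mem_image_of_mem _ hc)
  · intro m hm m' hm' hne
    obtain ⟨c, hc, hc2⟩ := hsep m hm m' hm' hne
    refine ⟨c, hc, ?_⟩
    rw [key, key] at hc2
    exact hc2

end Pool.Agent.U605.Null
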