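import Mathlib

/-!
# `p`-metric mean dimension of sofic group actions: definitions and basic estimates
-/

set_option autoImplicit false

open Filter Topology
open scoped ENNReal

namespace Pool.Agent.U605.SoficP

universe u v

/-- `ρ` is a continuous pseudometric on `X`. -/
structure IsPseudo {X : Type v} [TopologicalSpace X] (ρ : X → X → ℝ) : Prop where
  self : ∀ x, ρ x x = 0
  symm : ∀ x y, ρ x y = ρ y x
  tri : ∀ x y z, ρ x z ≤ ρ x y + ρ y z
  cont : Continuous fun z : X × X => ρ z.1 z.2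

/-- `ρ` is dynamically generating: for `x ≠ y` there is `s ∈ G` with `ρ(s x, s y) > 0`. -/
def Generating (G : Type u) {X : Type v} [Group G] [MulAction G X] (ρ : X → X → ℝ) : Prop :=
  ∀ x y : X, x ≠ y → ∃ s : G, 0 < ρ (s • x) (s • y)

open scoped Classical in
/-- `ρ_p(φ, ψ)`: for `p < ∞` it is `((1/d) ∑ ρ(φ j, ψ j)^p)^(1/p)`, for `p = ∞` it is
`max_j ρ(φ j, ψ j)`. -/
noncomputable def dp {X : Type v} (p : ℝ≥0∞) (ρ : X → X → ℝ) {d : ℕ} (φ ψ : Fin d → X) : ℝ :=
  if p = ∞ then ⨆ j, ρ (φ j) (ψ j)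
  else ((∑ j, ρ (φ j) (ψ j) ^ p.toReal) / d) ^ (1 / p.toReal)

/-- `Map(ρ, F, δ, σ)`: the maps `φ : {1, …, d} → X` with `ρ_2(φ ∘ σ(s), s φ) ≤ δ` for all
`s ∈ F`. -/
def MapSet {G : Type u} {X : Type v} [Group G] [MulAction G X] (ρ : X → X → ℝ) (F : Finset G)
    (δ : ℝ) {d : ℕ} (σ : G → Equiv.Perm (Fin d)) : Set (Fin d → X) :=
  {φ | ∀ s ∈ F, dp 2 ρ (φ ∘ σ s) (fun j => s • φ j) ≤ δ}

/-- `log N_ε(Y, θ)`: the supremum of `log |E|` over the nonempty finite `ε`-separated subsets `E`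
of `Y`; it is `-∞` if `Y` is empty. -/
noncomputable def logN {Z : Type v} (ε : ℝ) (Y : Set Z) (θ : Z → Z → ℝ) : EReal :=
  ⨆ (E : Finset Z) (_ : E.Nonempty ∧ (E : Set Z) ⊆ Y ∧ ∀ a ∈ E, ∀ b ∈ E, a ≠ b → ε ≤ θ a b),
    ((Real.log E.card : ℝ) : EReal)

/-- A sofic approximation sequence. -/
structure IsSofic (G : Type u) [Group G] (d : ℕ → ℕ) (σ : (i : ℕ) → G → Equiv.Perm (Fin (d i))) :
    Prop where
  mult : ∀ s t : G, Tendsto
    (fun i => (Nat.card {j // σ i (s * t) j = σ i s (σ i t j)} : ℝ) / d i) atTop (𝓝 1)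
  free : ∀ s : G, s ≠ 1 → Tendsto (fun i => (Nat.card {j // σ i s j = j} : ℝ) / d i) atTop (𝓝 0)
  size : Tendsto d atTop atTop

section

variable (G : Type u) (X : Type v) [Group G] [TopologicalSpace X] [MulAction G X] (d : ℕ → ℕ)
  (σ : (i : ℕ) → G → Equiv.Perm (Fin (d i)))

/-- `mdim_{Σ,p}(ρ)`. -/
noncomputable def mdimP (p : ℝ≥0∞) (ρ : X → X → ℝ) : EReal :=
  liminf (fun ε : ℝ => ⨅ (F : Finset G) (δ : ℝ) (_ : 0 < δ),
    limsup (fun i => logN ε (MapSet ρ F δ (σ i)) (dp p ρ) /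
      (((d i : ℝ) * Real.log (1 / ε) : ℝ) : EReal)) atTop) (𝓝[>] 0)

/-- The `p`-metric mean dimension `mdim_{Σ,M,p}(X, G)`: the infimum of `mdim_{Σ,p}(ρ)` over the
dynamically generating continuous pseudometrics. -/
noncomputable def mdimMP (p : ℝ≥0∞) : EReal :=
  ⨅ (ρ : X → X → ℝ) (_ : IsPseudo ρ ∧ Generating G ρ), mdimP G X d σ p ρ

end

/-! ### Basic facts -/

section basic

variable {X : Type v} [TopologicalSpace X] {ρ : X → X → ℝ}

lemma IsPseudo.nonneg (h : IsPseudo ρ) (x y : X) : 0 ≤ ρ x y := by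
  have h1 := h.tri x y x
  rw [h.self, h.symm y x] at h1
  linarith

omit [TopologicalSpace X] in
lemma dp_top {d : ℕ} (φ ψ : Fin d → X) : dp ∞ ρ φ ψ = ⨆ j, ρ (φ j) (ψ j) := by
  unfold dp; rw [if_pos rfl]

omit [TopologicalSpace X] in
lemma dp_ne_top {p : ℝ≥0∞} (hp : p ≠ ∞) {d : ℕ} (φ ψ : Fin d → X) :
    dp p ρ φ ψ = ((∑ j, ρ (φ j) (ψ j) ^ p.toReal) / d) ^ (1 / p.toReal) := by
  unfold dp; rw [if_neg hp]

lemma toReal_ge_one {p : ℝ≥0∞} (h1 : 1 ≤ p) (hp : p ≠ ∞) : 1 ≤ p.toReal := by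
  have := ENNReal.toReal_mono hp h1
  simpa using this

lemma dp_le_top (h : IsPseudo ρ) {p : ℝ≥0∞} (h1 : 1 ≤ p) (hp : p ≠ ∞) {d : ℕ}
    (φ ψ : Fin d → X) : dp p ρ φ ψ ≤ dp ∞ ρ φ ψ := by
  rw [dp_top, dp_ne_top hp]
  have hp1 := toReal_ge_one h1 hp
  rcases Nat.eq_zero_or_pos d with hd | hd
  · subst hd
    simp only [Finset.univ_eq_empty, Finset.sum_empty, Nat.cast_zero, div_zero]
    rw [Real.zero_rpow (by positivity), Real.iSup_of_isEmpty]
  · have : Nonempty (Fin d) := ⟨⟨0, hd⟩⟩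
    have hd' : (0 : ℝ) < d := by exact_mod_cast hd
    set M := ⨆ j, ρ (φ j) (ψ j) with hM
    have hle : ∀ j, ρ (φ j) (ψ j) ≤ M := fun j =>
      le_ciSup (f := fun j => ρ (φ j) (ψ j)) (Set.finite_range _).bddAbove j
    have hM0 : 0 ≤ M := (h.nonneg _ _).trans (hle ⟨0, hd⟩)
    have h2 : (∑ j, ρ (φ j) (ψ j) ^ p.toReal) / d ≤ M ^ p.toReal := by
      rw [div_le_iff₀ hd']
      calc ∑ j, ρ (φ j) (ψ j) ^ p.toReal ≤ ∑ _j : Fin d, M ^ p.toReal :=
            Finset.sum_le_sum fun j _ => Real.rpow_le_rpow (h.nonneg _ _) (hle j) (by linarith)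
        _ = M ^ p.toReal * d := by simp [mul_comm]
    calc _ ≤ (M ^ p.toReal) ^ (1 / p.toReal) := by
          apply Real.rpow_le_rpow _ h2 (by positivity)
          exact div_nonneg (Finset.sum_nonneg fun j _ => Real.rpow_nonneg (h.nonneg _ _) _)
            hd'.le
      _ = M := by rw [← Real.rpow_mul hM0, mul_one_div_cancel (by linarith), Real.rpow_one]

lemma dp_self (h : IsPseudo ρ) {p : ℝ≥0∞} (h1 : 1 ≤ p) (hp : p ≠ ∞) {d : ℕ} (φ : Fin d → X) :
    dp p ρ φ φ = 0 := by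
  rw [dp_ne_top hp]
  have hp1 := toReal_ge_one h1 hp
  have : ∀ j, ρ (φ j) (φ j) ^ p.toReal = 0 := fun j => by
    rw [h.self, Real.zero_rpow (by linarith)]
  simp only [this, Finset.sum_const_zero, zero_div]
  rw [Real.zero_rpow (by positivity)]

lemma dp_symm (h : IsPseudo ρ) {p : ℝ≥0∞} {d : ℕ} (φ ψ : Fin d → X) :
    dp p ρ φ ψ = dp p ρ ψ φ := by
  unfold dp
  simp only [h.symm (φ _) (ψ _)]

lemma dp_mono {ρ' : X → X → ℝ} (h' : IsPseudo ρ') (hle : ∀ x y, ρ' x y ≤ ρ x y) {p : ℝ≥0∞}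
    (h1 : 1 ≤ p) (hp : p ≠ ∞) {d : ℕ} (φ ψ : Fin d → X) : dp p ρ' φ ψ ≤ dp p ρ φ ψ := by
  rw [dp_ne_top hp, dp_ne_top hp]
  have hp1 := toReal_ge_one h1 hp
  apply Real.rpow_le_rpow
  · exact div_nonneg (Finset.sum_nonneg fun j _ => Real.rpow_nonneg (h'.nonneg _ _) _)
      (Nat.cast_nonneg _)
  · apply div_le_div_of_nonneg_right _ (Nat.cast_nonneg _)
    exact Finset.sum_le_sum fun j _ => Real.rpow_le_rpow (h'.nonneg _ _) (hle _ _) (by linarith)
  · positivity

lemma exists_bound [CompactSpace X] (h : IsPseudo ρ) : ∃ M : ℝ, 0 < M ∧ ∀ x y, ρ x y ≤ M := by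
  obtain ⟨C, hC⟩ := (isCompact_range h.cont).bddAbove
  exact ⟨max C 1, lt_max_of_lt_right one_pos, fun x y =>
    (hC ⟨(x, y), rfl⟩).trans (le_max_left _ _)⟩

/-- If `ρ_p(φ, ψ) < ε'` then few coordinates are at distance at least `η`. -/
lemma card_far (h : IsPseudo ρ) {p : ℝ≥0∞} (h1 : 1 ≤ p) (hp : p ≠ ∞) {d : ℕ}
    (φ ψ : Fin d → X) {ε' η : ℝ} (hη : 0 < η) (hε' : 0 < ε') (hd : dp p ρ φ ψ ≤ ε') :
    ((Finset.univ.filter fun j => η ≤ ρ (φ j) (ψ j)).card : ℝ) ≤ (ε' / η) ^ p.toReal * d := by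
  have hp1 := toReal_ge_one h1 hp
  rcases Nat.eq_zero_or_pos d with hd0 | hd0
  · subst hd0
    simp
  have hd' : (0 : ℝ) < d := by exact_mod_cast hd0
  rw [dp_ne_top hp] at hd
  have hS0 : 0 ≤ (∑ j, ρ (φ j) (ψ j) ^ p.toReal) / d :=
    div_nonneg (Finset.sum_nonneg fun j _ => Real.rpow_nonneg (h.nonneg _ _) _) hd'.le
  have h2 : (∑ j, ρ (φ j) (ψ j) ^ p.toReal) / d ≤ ε' ^ p.toReal := by
    have := Real.rpow_le_rpow (Real.rpow_nonneg hS0 _) hd (show 0 ≤ p.toReal by linarith)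
    rwa [← Real.rpow_mul hS0, one_div_mul_cancel (by linarith), Real.rpow_one] at this
  rw [div_le_iff₀ hd'] at h2
  have h3 : ((Finset.univ.filter fun j => η ≤ ρ (φ j) (ψ j)).card : ℝ) * η ^ p.toReal ≤
      ∑ j, ρ (φ j) (ψ j) ^ p.toReal := by
    calc _ = ∑ _j ∈ Finset.univ.filter (fun j => η ≤ ρ (φ j) (ψ j)), η ^ p.toReal := by
          rw [Finset.sum_const, nsmul_eq_mul]
      _ ≤ ∑ j ∈ Finset.univ.filter (fun j => η ≤ ρ (φ j) (ψ j)), ρ (φ j) (ψ j) ^ p.toReal := by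
          apply Finset.sum_le_sum
          intro j hj
          exact Real.rpow_le_rpow hη.le (Finset.mem_filter.1 hj).2 (by linarith)
      _ ≤ _ := Finset.sum_le_univ_sum_of_nonneg fun j => Real.rpow_nonneg (h.nonneg _ _) _
  have hηp : 0 < η ^ p.toReal := Real.rpow_pos_of_pos hη _
  rw [Real.div_rpow hε'.le hη.le, div_mul_eq_mul_div, le_div_iff₀ hηp]
  linarith

end basic

/-! ### Counting functions with small support -/

lemma count_supp (d N : ℕ) (hN : 1 ≤ N) {lam : ℝ} (h0 : 0 < lam) (h1 : lam ≤ 1) :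
    (((Finset.univ : Finset (Fin d → Option (Fin N))).filter fun g =>
      ((Finset.univ.filter fun j => g j ≠ none).card : ℝ) ≤ lam * d).card : ℝ) ≤
      Real.exp (d * (lam * Real.log N + lam * Real.log (1 / lam) + lam)) := by
  classical
  have hN' : (1 : ℝ) ≤ N := by exact_mod_cast hN
  have hN0 : (0 : ℝ) < N := by linarith
  set x : ℝ := lam / N with hx
  have hx0 : 0 < x := by positivity
  have hx1 : x ≤ 1 := by rw [hx, div_le_one hN0]; linarith
  let w : Option (Fin N) → ℝ := fun o => if o = none then 1 else x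
  have hw0 : ∀ o, 0 ≤ w o := by intro o; simp only [w]; split_ifs <;> positivity
  have hsum : ∑ o, w o = 1 + N * x := by
    rw [Fintype.sum_option]
    simp [w]
  have htot : ∑ g : Fin d → Option (Fin N), ∏ j, w (g j) = (1 + N * x) ^ d := by
    rw [← hsum, Fintype.sum_pow]
  have hprod : ∀ g : Fin d → Option (Fin N), ∏ j, w (g j) =
      x ^ (Finset.univ.filter fun j => g j ≠ none).card := by
    intro g
    rw [← Finset.prod_filter_mul_prod_filter_not Finset.univ (fun j => g j ≠ none)]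
    have a1 : ∏ j ∈ Finset.univ.filter (fun j => g j ≠ none), w (g j) =
        x ^ (Finset.univ.filter fun j => g j ≠ none).card := by
      rw [← Finset.prod_const]
      apply Finset.prod_congr rfl
      intro j hj
      simp only [w]
      rw [if_neg (Finset.mem_filter.1 hj).2]
    have a2 : ∏ j ∈ Finset.univ.filter (fun j => ¬ g j ≠ none), w (g j) = 1 := by
      apply Finset.prod_eq_one
      intro j hj
      have := (Finset.mem_filter.1 hj).2
      rw [not_not] at this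
      simp only [w]
      rw [if_pos this]
    rw [a1, a2, mul_one]
  set S := (Finset.univ : Finset (Fin d → Option (Fin N))).filter fun g =>
      ((Finset.univ.filter fun j => g j ≠ none).card : ℝ) ≤ lam * d with hS
  have hlow : (S.card : ℝ) * x ^ (lam * d) ≤ (1 + N * x) ^ d := by
    rw [← htot]
    calc (S.card : ℝ) * x ^ (lam * d) = ∑ _g ∈ S, x ^ (lam * d) := by
          rw [Finset.sum_const, nsmul_eq_mul]
      _ ≤ ∑ g ∈ S, ∏ j, w (g j) := by
          apply Finset.sum_le_sum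
          intro g hg
          rw [hprod g, ← Real.rpow_natCast]
          exact Real.rpow_le_rpow_of_exponent_ge hx0 hx1 (Finset.mem_filter.1 hg).2
      _ ≤ _ := Finset.sum_le_univ_sum_of_nonneg fun g => Finset.prod_nonneg fun j _ => hw0 _
  have hNx : N * x = lam := by rw [hx]; field_simp
  rw [hNx] at hlow
  have hup : (1 + lam) ^ d ≤ Real.exp (lam * d) := by
    have := Real.add_one_le_exp lam
    calc (1 + lam) ^ d ≤ (Real.exp lam) ^ d := pow_le_pow_left₀ (by linarith) (by linarith) _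
      _ = Real.exp (lam * d) := by rw [← Real.exp_nat_mul]; ring_nf
  have hxp : 0 < x ^ (lam * d) := Real.rpow_pos_of_pos hx0 _
  have h2 : (S.card : ℝ) ≤ Real.exp (lam * d) / x ^ (lam * d) := by
    rw [le_div_iff₀ hxp]; exact hlow.trans hup
  refine h2.trans (le_of_eq ?_)
  rw [Real.rpow_def_of_pos hx0, ← Real.exp_sub]
  congr 1
  rw [hx, Real.log_div h0.ne' hN0.ne', one_div, Real.log_inv]
  ring

/-- The counting lemma: an `ε`-separated set for `ρ_∞` contains an `ε'`-separated set for `ρ_p`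
which is not much smaller. -/
lemma count_sep {X : Type v} [TopologicalSpace X] {ρ : X → X → ℝ} (h : IsPseudo ρ) {p : ℝ≥0∞}
    (h1 : 1 ≤ p) (hp : p ≠ ∞) {d N : ℕ} (hN : 1 ≤ N) {ε ε' lam : ℝ} (hε : 0 < ε) (hε' : 0 < ε')
    (hl0 : 0 < lam) (hl1 : lam ≤ 1) (hlam : (ε' / (ε / 3)) ^ p.toReal ≤ lam) (cell : X → Fin N)
    (hcell : ∀ x y, cell x = cell y → ρ x y < ε) (E : Finset (Fin d → X))
    (hE : ∀ φ ∈ E, ∀ ψ ∈ E, φ ≠ ψ → ε ≤ dp ∞ ρ φ ψ) :
    ∃ Z ⊆ E, (∀ φ ∈ Z, ∀ ψ ∈ Z, φ ≠ ψ → ε' ≤ dp p ρ φ ψ) ∧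
      (E.card : ℝ) ≤ Z.card *
        Real.exp (d * (lam * Real.log N + lam * Real.log (1 / lam) + lam)) := by
  classical
  -- a maximal separated subset
  obtain ⟨Z, hZ⟩ := (E.powerset.filter fun Z : Finset (Fin d → X) =>
    ∀ φ ∈ Z, ∀ ψ ∈ Z, φ ≠ ψ → ε' ≤ dp p ρ φ ψ).exists_maximal
      ⟨∅, by simp⟩
  have hZmem : Z ∈ (E.powerset.filter fun Z : Finset (Fin d → X) =>
    ∀ φ ∈ Z, ∀ ψ ∈ Z, φ ≠ ψ → ε' ≤ dp p ρ φ ψ) := hZ.1
  rw [Finset.mem_filter, Finset.mem_powerset] at hZmem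
  refine ⟨Z, hZmem.1, hZmem.2, ?_⟩
  have hnear : ∀ φ ∈ E, ∃ ψ ∈ Z, dp p ρ φ ψ ≤ ε' := by
    intro φ hφ
    by_cases hφZ : φ ∈ Z
    · exact ⟨φ, hφZ, by rw [dp_self h h1 hp]; exact hε'.le⟩
    · by_contra hcon
      push Not at hcon
      have hins : insert φ Z ∈ (E.powerset.filter fun Z : Finset (Fin d → X) =>
          ∀ φ ∈ Z, ∀ ψ ∈ Z, φ ≠ ψ → ε' ≤ dp p ρ φ ψ) := by
        rw [Finset.mem_filter, Finset.mem_powerset]
        refine ⟨Finset.insert_subset hφ hZmem.1, ?_⟩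
        intro a ha b hb hab
        rw [Finset.mem_insert] at ha hb
        rcases ha with rfl | ha <;> rcases hb with rfl | hb
        · exact absurd rfl hab
        · exact (hcon b hb).le
        · rw [dp_symm h]; exact (hcon a ha).le
        · exact hZmem.2 a ha b hb hab
      have := hZ.2 hins (Finset.subset_insert φ Z)
      exact hφZ (this (Finset.mem_insert_self φ Z))
  choose! z hz1 hz2 using hnear
  -- count fibres
  set W : Finset (Fin d → Option (Fin N)) := (Finset.univ.filter fun g =>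
      ((Finset.univ.filter fun j => g j ≠ none).card : ℝ) ≤ lam * d) with hW
  have hfib : ∀ ψ ∈ Z, (E.filter fun φ => z φ = ψ).card ≤ W.card := by
    intro ψ _
    apply Finset.card_le_card_of_injOn
      (fun φ => fun j => if ρ (φ j) (ψ j) < ε / 3 then none else some (cell (φ j)))
    · intro φ hφ
      rw [Finset.mem_coe, Finset.mem_filter] at hφ
      rw [Finset.mem_coe, hW, Finset.mem_filter]
      refine ⟨Finset.mem_univ _, ?_⟩
      have hd := hz2 φ hφ.1
      rw [hφ.2] at hd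
      have h3 := card_far h h1 hp φ ψ (show 0 < ε / 3 by positivity) hε' hd
      have h4 : (Finset.univ.filter fun j => (if ρ (φ j) (ψ j) < ε / 3 then none
          else some (cell (φ j))) ≠ none) = Finset.univ.filter fun j => ε / 3 ≤ ρ (φ j) (ψ j) := by
        apply Finset.filter_congr
        intro j _
        by_cases hj : ρ (φ j) (ψ j) < ε / 3
        · simp [hj]
        · simp [hj, not_lt.1 hj]
      simp only [h4]
      refine h3.trans ?_
      gcongr
    · intro φ hφ φ' hφ' heq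
      rw [Finset.mem_coe, Finset.mem_filter] at hφ hφ'
      by_contra hne
      have h5 := hE φ hφ.1 φ' hφ'.1 hne
      rw [dp_top] at h5
      have h6 : ∀ j, ρ (φ j) (φ' j) < ε := by
        intro j
        have hj := congrFun heq j
        simp only at hj
        by_cases a : ρ (φ j) (ψ j) < ε / 3
        · by_cases b : ρ (φ' j) (ψ j) < ε / 3
          · have := h.tri (φ j) (ψ j) (φ' j)
            rw [h.symm (ψ j)] at this
            linarith
          · rw [if_pos a, if_neg b] at hj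
            exact absurd hj (by simp)
        · by_cases b : ρ (φ' j) (ψ j) < ε / 3
          · rw [if_neg a, if_pos b] at hj
            exact absurd hj (by simp)
          · rw [if_neg a, if_neg b] at hj
            exact hcell _ _ (Option.some.inj hj)
      rcases isEmpty_or_nonempty (Fin d) with hemp | hne'
      · apply hne
        funext j
        exact hemp.elim j
      · obtain ⟨j, hj⟩ := exists_eq_ciSup_of_finite (f := fun j => ρ (φ j) (φ' j))
        rw [← hj] at h5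
        exact absurd h5 (not_le.2 (h6 j))
  have hcard : E.card ≤ Z.card * W.card := by
    rw [mul_comm]
    refine Finset.card_le_mul_card_image_of_maps_to (f := z) (fun φ hφ => hz1 φ hφ) _ ?_
    exact hfib
  have h7 := count_supp d N hN hl0 hl1
  calc (E.card : ℝ) ≤ Z.card * W.card := by exact_mod_cast hcard
    _ ≤ _ := mul_le_mul_of_nonneg_left h7 (Nat.cast_nonneg _)

end Pool.Agent.U605.SoficP
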