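import Pool.Agent.U605.SoficP

/-!
# `p`-metric mean dimension of sofic group actions: slowly growing pseudometrics, change of the
pseudometric in `Map`
-/

set_option autoImplicit false

open Filter Topology
open scoped ENNReal

namespace Pool.Agent.U605.SoficP

universe u v

/-! ### A pseudometric with slowly growing covering numbers -/

/-- The weights. -/
noncomputable def wt (k : ℕ) : ℝ := (1 / 2) ^ ((k + 1) ^ 2)

lemma wt_pos (k : ℕ) : 0 < wt k := by unfold wt; positivity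

lemma wt_le (K j : ℕ) : wt (K + j) ≤ (1 / 2) ^ ((K + 1) ^ 2) * (1 / 2) ^ j := by
  unfold wt
  rw [← pow_add]
  apply pow_le_pow_of_le_one (by norm_num) (by norm_num)
  nlinarith [Nat.zero_le K, Nat.zero_le j, Nat.zero_le (K * j), Nat.zero_le (j * j)]

lemma summable_wt : Summable wt := by
  apply Summable.of_nonneg_of_le (fun k => (wt_pos k).le) (fun k => ?_) summable_geometric_two
  have := wt_le 0 k
  simp only [zero_add, one_pow, pow_one] at this
  have h2 : (0 : ℝ) < (1 / 2) ^ k := by positivity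
  linarith

lemma tsum_wt_tail (K : ℕ) : ∑' j, wt (j + K) ≤ 2 * (1 / 2) ^ ((K + 1) ^ 2) := by
  have h1 : ∀ j, wt (j + K) ≤ (1 / 2) ^ ((K + 1) ^ 2) * (1 / 2) ^ j := by
    intro j; rw [add_comm]; exact wt_le K j
  have h2 : Summable fun j : ℕ => ((1 : ℝ) / 2) ^ ((K + 1) ^ 2) * (1 / 2) ^ j :=
    summable_geometric_two.mul_left _
  calc ∑' j, wt (j + K) ≤ ∑' j : ℕ, ((1 : ℝ) / 2) ^ ((K + 1) ^ 2) * (1 / 2) ^ j :=
        Summable.tsum_le_tsum h1 ((summable_nat_add_iff K).2 summable_wt) h2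
    _ = _ := by rw [tsum_mul_left, tsum_geometric_two]; ring

lemma tsum_wt_le_one : ∑' j, wt j ≤ 1 := by
  have := tsum_wt_tail 0
  simp only [add_zero, zero_add, one_pow, pow_one] at this
  linarith

section slow

variable {X : Type v} [TopologicalSpace X] {ρ : X → X → ℝ}

/-- The slowly growing pseudometric built from the functions `ρ(·, z k)`. -/
noncomputable def slow (ρ : X → X → ℝ) (z : ℕ → X) (x y : X) : ℝ :=
  ∑' k, wt k * |ρ x (z k) - ρ y (z k)|

lemma abs_sub_le_of_pseudo (h : IsPseudo ρ) (x y w : X) : |ρ x w - ρ y w| ≤ ρ x y := by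
  rw [abs_le]
  have h1 := h.tri x y w
  have h2 := h.tri y x w
  rw [h.symm y x] at h2
  constructor <;> linarith

lemma slow_term_le (h : IsPseudo ρ) (z : ℕ → X) (x y : X) (k : ℕ) :
    wt k * |ρ x (z k) - ρ y (z k)| ≤ wt k * ρ x y :=
  mul_le_mul_of_nonneg_left (abs_sub_le_of_pseudo h x y (z k)) (wt_pos k).le

lemma slow_summable (h : IsPseudo ρ) (z : ℕ → X) (x y : X) :
    Summable fun k => wt k * |ρ x (z k) - ρ y (z k)| :=
  Summable.of_nonneg_of_le (fun k => mul_nonneg (wt_pos k).le (abs_nonneg _))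
    (slow_term_le h z x y) (summable_wt.mul_right _)

lemma slow_le (h : IsPseudo ρ) (z : ℕ → X) (x y : X) : slow ρ z x y ≤ ρ x y := by
  calc slow ρ z x y ≤ ∑' k, wt k * ρ x y :=
        Summable.tsum_le_tsum (slow_term_le h z x y) (slow_summable h z x y)
          (summable_wt.mul_right _)
    _ = (∑' k, wt k) * ρ x y := tsum_mul_right
    _ ≤ 1 * ρ x y := mul_le_mul_of_nonneg_right tsum_wt_le_one (h.nonneg x y)
    _ = ρ x y := one_mul _

lemma slow_pseudo [CompactSpace X] (h : IsPseudo ρ) (z : ℕ → X) : IsPseudo (slow ρ z) where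
  self x := by simp [slow]
  symm x y := by
    unfold slow
    congr 1
    funext k
    rw [abs_sub_comm]
  tri x y w := by
    unfold slow
    rw [← (slow_summable h z x y).tsum_add (slow_summable h z y w)]
    apply Summable.tsum_le_tsum _ (slow_summable h z x w)
      ((slow_summable h z x y).add (slow_summable h z y w))
    intro k
    rw [← mul_add]
    exact mul_le_mul_of_nonneg_left (abs_sub_le _ _ _) (wt_pos k).le
  cont := by
    obtain ⟨M, hM0, hM⟩ := exists_bound h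
    unfold slow
    apply continuous_tsum (u := fun k => wt k * M)
    · intro k
      apply Continuous.mul continuous_const
      apply Continuous.abs
      apply Continuous.sub
      · exact h.cont.comp (continuous_fst.prodMk continuous_const)
      · exact h.cont.comp (continuous_snd.prodMk continuous_const)
    · exact summable_wt.mul_right _
    · intro k xy
      rw [Real.norm_eq_abs, abs_mul, abs_abs, abs_of_pos (wt_pos k)]
      exact mul_le_mul_of_nonneg_left ((abs_sub_le_of_pseudo h _ _ _).trans (hM _ _)) (wt_pos k).le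

lemma slow_pos (h : IsPseudo ρ) {z : ℕ → X} (hz : DenseRange z) {x y : X} (hxy : 0 < ρ x y) :
    0 < slow ρ z x y := by
  -- choose `z k` with `ρ x (z k)` small
  have hopen : IsOpen {w : X | ρ x w < ρ x y / 3} :=
    isOpen_lt (h.cont.comp (continuous_const.prodMk continuous_id)) continuous_const
  obtain ⟨k, hk⟩ := hz.exists_mem_open hopen ⟨x, by
    show ρ x x < ρ x y / 3
    rw [h.self]; positivity⟩
  have hk' : ρ x (z k) < ρ x y / 3 := hk
  have h2 := h.tri x (z k) y
  rw [h.symm (z k) y] at h2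
  have h3 : 0 < |ρ x (z k) - ρ y (z k)| := by
    apply abs_pos.2
    intro h4
    linarith
  calc 0 < wt k * |ρ x (z k) - ρ y (z k)| := mul_pos (wt_pos k) h3
    _ ≤ slow ρ z x y := (slow_summable h z x y).le_tsum k
        fun j _ => mul_nonneg (wt_pos j).le (abs_nonneg _)

/-- The covering numbers of the slow pseudometric. -/
lemma slow_cells (h : IsPseudo ρ) (z : ℕ → X) {M : ℝ} (hM0 : 0 < M) (hM : ∀ x y, ρ x y ≤ M)
    {ε : ℝ} (hε : 0 < ε) (K : ℕ) (hK : 2 * (1 / 2) ^ ((K + 1) ^ 2) * M ≤ ε / 2) :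
    ∃ cell : X → Fin ((⌊4 * M / ε⌋₊ + 1) ^ K), ∀ x y, cell x = cell y → slow ρ z x y < ε := by
  classical
  let c : X → (Fin K → Fin (⌊4 * M / ε⌋₊ + 1)) := fun x k =>
    ⟨⌊4 * ρ x (z k) / ε⌋₊, by
      apply Nat.lt_succ_of_le
      apply Nat.floor_le_floor
      have := hM x (z k)
      gcongr⟩
  have e : (Fin K → Fin (⌊4 * M / ε⌋₊ + 1)) ≃ Fin ((⌊4 * M / ε⌋₊ + 1) ^ K) :=
    Fintype.equivFinOfCardEq (by simp)
  refine ⟨fun x => e (c x), fun x y hxy => ?_⟩
  have hc : c x = c y := e.injective hxy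
  have hk : ∀ k : Fin K, |ρ x (z k) - ρ y (z k)| ≤ ε / 4 := by
    intro k
    have h1 := congrFun hc k
    have h2 : ⌊4 * ρ x (z k) / ε⌋₊ = ⌊4 * ρ y (z k) / ε⌋₊ := congrArg Fin.val h1
    have a0 : 0 ≤ 4 * ρ x (z k) / ε := div_nonneg (by have := h.nonneg x (z k); linarith) hε.le
    have b0 : 0 ≤ 4 * ρ y (z k) / ε := div_nonneg (by have := h.nonneg y (z k); linarith) hε.le
    have a1 := Nat.floor_le a0
    have a2 := Nat.lt_floor_add_one (4 * ρ x (z k) / ε)
    have b1 := Nat.floor_le b0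
    have b2 := Nat.lt_floor_add_one (4 * ρ y (z k) / ε)
    rw [h2] at a1 a2
    have hd1 : 4 * ρ x (z k) / ε - 4 * ρ y (z k) / ε ≤ 1 := by linarith
    have hd2 : 4 * ρ y (z k) / ε - 4 * ρ x (z k) / ε ≤ 1 := by linarith
    rw [← sub_div, div_le_one hε] at hd1 hd2
    rw [abs_le]
    constructor <;> linarith
  have hsum := slow_summable h z x y
  unfold slow
  rw [← hsum.sum_add_tsum_nat_add K]
  have h3 : ∑ k ∈ Finset.range K, wt k * |ρ x (z k) - ρ y (z k)| ≤ ε / 4 := by
    calc _ ≤ ∑ k ∈ Finset.range K, wt k * (ε / 4) := by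
          apply Finset.sum_le_sum
          intro k hk'
          exact mul_le_mul_of_nonneg_left (hk ⟨k, Finset.mem_range.1 hk'⟩) (wt_pos k).le
      _ = (∑ k ∈ Finset.range K, wt k) * (ε / 4) := by rw [Finset.sum_mul]
      _ ≤ 1 * (ε / 4) := by
          apply mul_le_mul_of_nonneg_right _ (by positivity)
          exact (summable_wt.sum_le_tsum _ fun k _ => (wt_pos k).le).trans tsum_wt_le_one
      _ = ε / 4 := one_mul _
  have h4 : ∑' j, wt (j + K) * |ρ x (z (j + K)) - ρ y (z (j + K))| ≤ ε / 2 := by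
    calc _ ≤ ∑' j, wt (j + K) * M := by
          apply Summable.tsum_le_tsum _ ((summable_nat_add_iff K).2 hsum)
            (((summable_nat_add_iff K).2 summable_wt).mul_right _)
          intro j
          exact mul_le_mul_of_nonneg_left ((abs_sub_le_of_pseudo h _ _ _).trans (hM _ _))
            (wt_pos _).le
      _ = (∑' j, wt (j + K)) * M := tsum_mul_right
      _ ≤ (2 * (1 / 2) ^ ((K + 1) ^ 2)) * M := mul_le_mul_of_nonneg_right (tsum_wt_tail K) hM0.le
      _ ≤ ε / 2 := hK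
  linarith

end slow

/-! ### Change of the pseudometric in `Map` -/

section change

variable {G : Type u} {X : Type v} [Group G] [TopologicalSpace X] [CompactSpace X] [MulAction G X]
  [ContinuousConstSMul G X] {ρ ρ' : X → X → ℝ}

/-- Uniform comparison of `ρ` with finitely many translates of a generating `ρ'`. -/
lemma uniform_compare (h : IsPseudo ρ) (h' : IsPseudo ρ') (hgen : Generating G ρ') {η : ℝ}
    (hη : 0 < η) : ∃ (K : Finset G) (τ : ℝ), 0 < τ ∧ ∀ x y : X,
      (∀ s ∈ K, ρ' (s • x) (s • y) < τ) → ρ x y < η := by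
  classical
  set A : Set (X × X) := {z | η ≤ ρ z.1 z.2} with hA
  have hAcl : IsClosed A := isClosed_le continuous_const h.cont
  have hAc : IsCompact A := hAcl.isCompact
  let U : G × ℕ → Set (X × X) := fun sn => {z | 1 / ((sn.2 : ℝ) + 1) < ρ' (sn.1 • z.1) (sn.1 • z.2)}
  have hUo : ∀ sn, IsOpen (U sn) := by
    intro sn
    apply isOpen_lt continuous_const
    exact h'.cont.comp ((continuous_fst.const_smul sn.1).prodMk (continuous_snd.const_smul sn.1))
  have hcov : A ⊆ ⋃ sn, U sn := by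
    intro z hz
    have hne : z.1 ≠ z.2 := by
      intro heq
      have hz' : η ≤ ρ z.1 z.2 := hz
      rw [heq, h.self] at hz'
      linarith
    obtain ⟨s, hs⟩ := hgen z.1 z.2 hne
    obtain ⟨n, hn⟩ := exists_nat_one_div_lt hs
    exact Set.mem_iUnion.2 ⟨(s, n), hn⟩
  obtain ⟨t, ht⟩ := hAc.elim_finite_subcover U hUo hcov
  refine ⟨t.image Prod.fst, if ht' : t.Nonempty then t.inf' ht' (fun sn => 1 / ((sn.2 : ℝ) + 1))
    else 1, ?_, ?_⟩
  · split_ifs with ht'
    · rw [Finset.lt_inf'_iff]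
      intro sn _
      positivity
    · exact one_pos
  · intro x y hxy
    by_contra hcon
    rw [not_lt] at hcon
    have hmem : (x, y) ∈ A := hcon
    obtain ⟨sn, hsn, hz⟩ := Set.mem_iUnion₂.1 (ht hmem)
    have ht' : t.Nonempty := ⟨sn, hsn⟩
    have h1 := hxy sn.1 (Finset.mem_image_of_mem _ hsn)
    rw [dif_pos ht'] at h1
    have h2 : t.inf' ht' (fun sn => 1 / ((sn.2 : ℝ) + 1)) ≤ 1 / ((sn.2 : ℝ) + 1) :=
      Finset.inf'_le _ hsn
    have h3 : 1 / ((sn.2 : ℝ) + 1) < ρ' (sn.1 • x) (sn.1 • y) := hz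
    linarith

omit [TopologicalSpace X] [CompactSpace X] in
lemma dp_two_eq {d : ℕ} (φ ψ : Fin d → X) :
    dp 2 ρ φ ψ = ((∑ j, ρ (φ j) (ψ j) ^ (2 : ℝ)) / d) ^ ((1 : ℝ) / 2) := by
  rw [dp_ne_top (by norm_num)]
  norm_num

/-- A criterion for `ρ_2(φ, ψ) ≤ δ`. -/
lemma dp_two_le (h : IsPseudo ρ) {M : ℝ} (hM0 : 0 < M) (hM : ∀ x y, ρ x y ≤ M) {δ : ℝ}
    (hδ : 0 < δ) {d : ℕ} (φ ψ : Fin d → X)
    (hbad : ((Finset.univ.filter fun j => δ / 2 ≤ ρ (φ j) (ψ j)).card : ℝ) * (4 * M ^ 2) ≤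
      3 * δ ^ 2 * d) : dp 2 ρ φ ψ ≤ δ := by
  rw [dp_two_eq]
  rcases Nat.eq_zero_or_pos d with hd0 | hd0
  · subst hd0
    simp only [Finset.univ_eq_empty, Finset.sum_empty, Nat.cast_zero, div_zero]
    rw [Real.zero_rpow (by norm_num)]
    exact hδ.le
  have hd' : (0 : ℝ) < d := by exact_mod_cast hd0
  have h1 : ∑ j, ρ (φ j) (ψ j) ^ (2 : ℝ) ≤ δ ^ 2 * d := by
    have e : ∀ j, ρ (φ j) (ψ j) ^ (2 : ℝ) ≤
        (δ / 2) ^ 2 + if δ / 2 ≤ ρ (φ j) (ψ j) then M ^ 2 else 0 := by
      intro j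
      have h0 := h.nonneg (φ j) (ψ j)
      have e2 : ρ (φ j) (ψ j) ^ (2 : ℝ) = ρ (φ j) (ψ j) ^ (2 : ℕ) := by
        rw [← Real.rpow_natCast]; norm_num
      rw [e2]
      split_ifs with hj
      · have := hM (φ j) (ψ j)
        nlinarith [sq_nonneg (δ / 2)]
      · rw [not_le] at hj
        nlinarith
    calc ∑ j, ρ (φ j) (ψ j) ^ (2 : ℝ) ≤
        ∑ j : Fin d, ((δ / 2) ^ 2 + if δ / 2 ≤ ρ (φ j) (ψ j) then M ^ 2 else 0) :=
          Finset.sum_le_sum fun j _ => e j
      _ = d * (δ / 2) ^ 2 +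
          ((Finset.univ.filter fun j => δ / 2 ≤ ρ (φ j) (ψ j)).card : ℝ) * M ^ 2 := by
          rw [Finset.sum_add_distrib, ← Finset.sum_filter, Finset.sum_const, Finset.sum_const,
            nsmul_eq_mul, nsmul_eq_mul, Finset.card_univ, Fintype.card_fin]
      _ ≤ _ := by nlinarith
  have h2 : (∑ j, ρ (φ j) (ψ j) ^ (2 : ℝ)) / d ≤ δ ^ 2 := by
    rw [div_le_iff₀ hd']; exact h1
  have h0 : 0 ≤ (∑ j, ρ (φ j) (ψ j) ^ (2 : ℝ)) / d :=
    div_nonneg (Finset.sum_nonneg fun j _ => Real.rpow_nonneg (h.nonneg _ _) _) hd'.le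
  calc _ ≤ (δ ^ 2) ^ ((1 : ℝ) / 2) := Real.rpow_le_rpow h0 h2 (by norm_num)
    _ = δ := by rw [← Real.sqrt_eq_rpow, Real.sqrt_sq hδ.le]

/-- For `i` large the set `Map(ρ', F', δ', σ_i)` is contained in `Map(ρ, F, δ, σ_i)`. -/
lemma map_change {d : ℕ → ℕ} {σ : (i : ℕ) → G → Equiv.Perm (Fin (d i))} (hσ : IsSofic G d σ)
    (h : IsPseudo ρ) (h' : IsPseudo ρ') (hgen : Generating G ρ') (F : Finset G) {δ : ℝ}
    (hδ : 0 < δ) : ∃ (F' : Finset G) (δ' : ℝ), 0 < δ' ∧
      ∀ᶠ i in atTop, MapSet ρ' F' δ' (σ i) ⊆ MapSet ρ F δ (σ i) := by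
  classical
  obtain ⟨M, hM0, hM⟩ := exists_bound h
  obtain ⟨K, τ, hτ, hK⟩ := uniform_compare (G := G) h h' hgen (half_pos hδ)
  -- constants
  set c : ℝ := 3 * δ ^ 2 / (4 * M ^ 2) with hc
  have hcpos : 0 < c := by positivity
  set kk : ℝ := (K.card : ℝ) + 1 with hkk
  have hkkpos : 0 < kk := by positivity
  -- `κ` is the allowed proportion for each type of error
  set κ : ℝ := c / (3 * kk) with hκ
  have hκpos : 0 < κ := by positivity
  set δ' : ℝ := (τ / 2) * Real.sqrt κ with hδ'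
  have hδ'pos : 0 < δ' := by positivity
  refine ⟨K ∪ (K ×ˢ F).image (fun st => st.1 * st.2), δ', hδ'pos, ?_⟩
  -- sofic errors are eventually small
  have hsof : ∀ᶠ i in atTop, ∀ st ∈ K ×ˢ F,
      ((Finset.univ.filter fun j => ¬ σ i (st.1 * st.2) j = σ i st.1 (σ i st.2 j)).card : ℝ) ≤
        κ * d i := by
    rw [Filter.eventually_all_finset]
    intro st _
    have h1 := hσ.mult st.1 st.2
    have h2 : ∀ᶠ i in atTop, 1 - κ <
        (Nat.card {j // σ i (st.1 * st.2) j = σ i st.1 (σ i st.2 j)} : ℝ) / d i :=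
      h1.eventually (lt_mem_nhds (by linarith))
    have h3 : ∀ᶠ i in atTop, 0 < d i := hσ.size.eventually (eventually_gt_atTop 0)
    filter_upwards [h2, h3] with i hi1 hi2
    have hd' : (0 : ℝ) < d i := by exact_mod_cast hi2
    rw [lt_div_iff₀ hd', Nat.card_eq_fintype_card, Fintype.card_subtype] at hi1
    have h4 : (Finset.univ.filter fun j => σ i (st.1 * st.2) j = σ i st.1 (σ i st.2 j)).card +
        (Finset.univ.filter fun j => ¬ σ i (st.1 * st.2) j = σ i st.1 (σ i st.2 j)).card = d i := by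
      rw [Finset.card_filter_add_card_filter_not]
      simp
    have h5 : ((Finset.univ.filter fun j => σ i (st.1 * st.2) j = σ i st.1 (σ i st.2 j)).card : ℝ) +
        ((Finset.univ.filter fun j => ¬ σ i (st.1 * st.2) j = σ i st.1 (σ i st.2 j)).card : ℝ) =
          d i := by exact_mod_cast h4
    linarith
  filter_upwards [hsof] with i hi φ hφ t ht
  apply dp_two_le h hM0 hM hδ
  -- errors of equivariance
  have herr : ∀ u ∈ K ∪ (K ×ˢ F).image (fun st => st.1 * st.2),
      ((Finset.univ.filter fun j => τ / 2 ≤ ρ' (φ (σ i u j)) (u • φ j)).card : ℝ) ≤ κ * d i := by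
    intro u hu
    have h1 := card_far h' (p := 2) (by norm_num) (by norm_num) (φ ∘ σ i u) (fun j => u • φ j)
      (half_pos hτ) hδ'pos (hφ u hu)
    have e : (δ' / (τ / 2)) ^ ((2 : ℝ≥0∞).toReal) = κ := by
      have e1 : δ' / (τ / 2) = Real.sqrt κ := by rw [hδ']; field_simp
      rw [e1]
      have e2 : (2 : ℝ≥0∞).toReal = 2 := by norm_num
      rw [e2, Real.rpow_two, Real.sq_sqrt hκpos.le]
    rw [e] at h1
    exact h1
  -- the bad set for `t`
  have hsub : (Finset.univ.filter fun j => δ / 2 ≤ ρ ((φ ∘ σ i t) j) (t • φ j)) ⊆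
      K.biUnion fun s =>
        ((Finset.univ.filter fun j => τ / 2 ≤ ρ' (φ (σ i s j)) (s • φ j)).image (σ i t).symm ∪
        (Finset.univ.filter fun j => ¬ σ i (s * t) j = σ i s (σ i t j))) ∪
        (Finset.univ.filter fun j => τ / 2 ≤ ρ' (φ (σ i (s * t) j)) ((s * t) • φ j)) := by
    intro j hj
    have hj2 : δ / 2 ≤ ρ (φ (σ i t j)) (t • φ j) := (Finset.mem_filter.1 hj).2
    have h1 : ∃ s ∈ K, τ ≤ ρ' (s • φ (σ i t j)) (s • t • φ j) := by
      by_contra hcon
      push Not at hcon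
      have := hK _ _ hcon
      linarith
    obtain ⟨s, hs, hs2⟩ := h1
    rw [Finset.mem_biUnion]
    refine ⟨s, hs, ?_⟩
    rw [Finset.mem_union, Finset.mem_union]
    by_cases a : τ / 2 ≤ ρ' (φ (σ i s (σ i t j))) (s • φ (σ i t j))
    · left; left
      rw [Finset.mem_image]
      exact ⟨σ i t j, Finset.mem_filter.2 ⟨Finset.mem_univ _, a⟩, by simp⟩
    · by_cases b : σ i (s * t) j = σ i s (σ i t j)
      · right
        rw [Finset.mem_filter]
        refine ⟨Finset.mem_univ _, ?_⟩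
        rw [not_le] at a
        have h2 := h'.tri (s • φ (σ i t j)) (φ (σ i s (σ i t j))) (s • t • φ j)
        rw [h'.symm (s • φ (σ i t j)) (φ (σ i s (σ i t j)))] at h2
        rw [b, mul_smul]
        linarith
      · left; right
        exact Finset.mem_filter.2 ⟨Finset.mem_univ _, b⟩
  have hcard : ((Finset.univ.filter fun j => δ / 2 ≤ ρ ((φ ∘ σ i t) j) (t • φ j)).card : ℝ) ≤
      K.card * (3 * (κ * d i)) := by
    calc _ ≤ (((K.biUnion fun s =>
        ((Finset.univ.filter fun j => τ / 2 ≤ ρ' (φ (σ i s j)) (s • φ j)).image (σ i t).symm ∪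
        (Finset.univ.filter fun j => ¬ σ i (s * t) j = σ i s (σ i t j))) ∪
        (Finset.univ.filter fun j => τ / 2 ≤ ρ' (φ (σ i (s * t) j)) ((s * t) • φ j))).card : ℕ) : ℝ) := by
          exact_mod_cast Finset.card_le_card hsub
      _ ≤ ∑ s ∈ K, (((((Finset.univ.filter fun j => τ / 2 ≤ ρ' (φ (σ i s j)) (s • φ j)).image
          (σ i t).symm ∪ (Finset.univ.filter fun j => ¬ σ i (s * t) j = σ i s (σ i t j))) ∪
        (Finset.univ.filter fun j => τ / 2 ≤ ρ' (φ (σ i (s * t) j)) ((s * t) • φ j))).card : ℕ) : ℝ) := by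
          exact_mod_cast Finset.card_biUnion_le
      _ ≤ ∑ _s ∈ K, 3 * (κ * d i) := by
          apply Finset.sum_le_sum
          intro s hs
          have c1 := Finset.card_union_le
            ((Finset.univ.filter fun j => τ / 2 ≤ ρ' (φ (σ i s j)) (s • φ j)).image (σ i t).symm ∪
              (Finset.univ.filter fun j => ¬ σ i (s * t) j = σ i s (σ i t j)))
            (Finset.univ.filter fun j => τ / 2 ≤ ρ' (φ (σ i (s * t) j)) ((s * t) • φ j))
          have c2 := Finset.card_union_le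
            ((Finset.univ.filter fun j => τ / 2 ≤ ρ' (φ (σ i s j)) (s • φ j)).image (σ i t).symm)
            (Finset.univ.filter fun j => ¬ σ i (s * t) j = σ i s (σ i t j))
          have c3 := Finset.card_image_le (f := (σ i t).symm)
            (s := Finset.univ.filter fun j => τ / 2 ≤ ρ' (φ (σ i s j)) (s • φ j))
          have d1 := herr s (Finset.mem_union_left _ hs)
          have d2 := herr (s * t) (Finset.mem_union_right _
            (Finset.mem_image.2 ⟨(s, t), Finset.mem_product.2 ⟨hs, ht⟩, rfl⟩))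
          have d3 := hi (s, t) (Finset.mem_product.2 ⟨hs, ht⟩)
          have c4 : ((((((Finset.univ.filter fun j => τ / 2 ≤ ρ' (φ (σ i s j)) (s • φ j)).image
              (σ i t).symm ∪ (Finset.univ.filter fun j => ¬ σ i (s * t) j = σ i s (σ i t j))) ∪
              (Finset.univ.filter fun j =>
                τ / 2 ≤ ρ' (φ (σ i (s * t) j)) ((s * t) • φ j))).card : ℕ)) : ℝ) ≤
              (((Finset.univ.filter fun j => τ / 2 ≤ ρ' (φ (σ i s j)) (s • φ j)).card : ℕ) : ℝ) +
              (((Finset.univ.filter fun j => ¬ σ i (s * t) j = σ i s (σ i t j)).card : ℕ) : ℝ) +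
              (((Finset.univ.filter fun j =>
                τ / 2 ≤ ρ' (φ (σ i (s * t) j)) ((s * t) • φ j)).card : ℕ) : ℝ) := by
            exact_mod_cast (by omega)
          simp only at d3
          linarith
      _ = K.card * (3 * (κ * d i)) := by rw [Finset.sum_const, nsmul_eq_mul]
  have hfin : (K.card : ℝ) * (3 * (κ * d i)) * (4 * M ^ 2) ≤ 3 * δ ^ 2 * d i := by
    have e1 : 3 * κ * kk = c := by rw [hκ]; field_simp
    have e2 : c * (4 * M ^ 2) = 3 * δ ^ 2 := by rw [hc]; field_simp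
    have e3 : (K.card : ℝ) ≤ kk := by rw [hkk]; linarith
    have hd0 : (0 : ℝ) ≤ d i := Nat.cast_nonneg _
    calc (K.card : ℝ) * (3 * (κ * d i)) * (4 * M ^ 2) ≤ kk * (3 * (κ * d i)) * (4 * M ^ 2) := by
          gcongr
      _ = (3 * κ * kk) * (4 * M ^ 2) * d i := by ring
      _ = 3 * δ ^ 2 * d i := by rw [e1, e2]
  calc _ ≤ (K.card : ℝ) * (3 * (κ * d i)) * (4 * M ^ 2) :=
        mul_le_mul_of_nonneg_right hcard (by positivity)
    _ ≤ _ := hfin

end change

end Pool.Agent.U605.SoficP
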