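import Pool.Agent.U605.SoficQ

/-!
# `p`-metric mean dimension of sofic group actions: the main comparison
-/

set_option autoImplicit false

open Filter Topology
open scoped ENNReal

namespace Pool.Agent.U605.SoficP

universe u v

lemma tendsto_L : Tendsto (fun ε : ℝ => Real.log (1 / ε)) (𝓝[>] 0) atTop := by
  have h := Real.tendsto_log_nhdsGT_zero
  have : (fun ε : ℝ => Real.log (1 / ε)) = fun ε => - Real.log ε := by
    funext ε; rw [one_div, Real.log_inv]
  rw [this]
  exact tendsto_neg_atBot_atTop.comp h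

lemma tendsto_theta : Tendsto (fun ε : ℝ => ε * Real.log (1 / ε)) (𝓝[>] 0) (𝓝[>] 0) := by
  apply tendsto_nhdsWithin_of_tendsto_nhds_of_eventually_within
  · have h : Tendsto (fun x : ℝ => Real.log x * x) (𝓝[>] 0) (𝓝 0) := by
      simpa only [Real.rpow_one] using tendsto_log_mul_rpow_nhdsGT_zero (r := 1) zero_lt_one
    have e : (fun ε : ℝ => ε * Real.log (1 / ε)) = fun ε => -(Real.log ε * ε) := by
      funext ε; rw [one_div, Real.log_inv]; ring
    rw [e]
    simpa using h.neg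
  · filter_upwards [tendsto_L.eventually (eventually_gt_atTop 0), self_mem_nhdsWithin] with ε h1 h2
    exact mul_pos h2 h1

lemma asymp (z1 z0 : ℝ) (h : z1 < z0) : ∀ᶠ L : ℝ in atTop,
    z1 * L + (18 * Real.sqrt L + 2) ≤ z0 * (L - Real.log L) := by
  have a1 : Tendsto (fun L : ℝ => Real.log L / L) atTop (𝓝 0) := by
    have := (Real.isLittleO_pow_log_id_atTop (n := 1)).tendsto_div_nhds_zero
    simpa using this
  have a2 : Tendsto (fun L : ℝ => 1 / L) atTop (𝓝 0) := by
    simpa [one_div] using tendsto_inv_atTop_zero (𝕜 := ℝ)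
  have a3 : Tendsto (fun L : ℝ => 1 / Real.sqrt L) atTop (𝓝 0) := by
    have := tendsto_inv_atTop_zero.comp Real.tendsto_sqrt_atTop
    simpa [one_div, Function.comp_def] using this
  have a4 : Tendsto (fun L : ℝ => z1 + 18 * (1 / Real.sqrt L) + 2 * (1 / L) +
      z0 * (Real.log L / L)) atTop (𝓝 (z1 + 18 * 0 + 2 * 0 + z0 * 0)) :=
    ((tendsto_const_nhds.add (a3.const_mul 18)).add (a2.const_mul 2)).add (a1.const_mul z0)
  have a5 := a4.eventually (gt_mem_nhds (show z1 + 18 * 0 + 2 * 0 + z0 * 0 < z0 by linarith))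
  filter_upwards [a5, eventually_gt_atTop 0] with L h1 h2
  have hs : Real.sqrt L * Real.sqrt L = L := Real.mul_self_sqrt h2.le
  have hs0 : 0 < Real.sqrt L := Real.sqrt_pos.2 h2
  have e : (z1 + 18 * (1 / Real.sqrt L) + 2 * (1 / L) + z0 * (Real.log L / L)) * L =
      z1 * L + 18 * Real.sqrt L + 2 + z0 * Real.log L := by
    have e1 : (1 / Real.sqrt L) * L = Real.sqrt L := by
      rw [one_div, inv_mul_eq_div, div_eq_iff hs0.ne', hs]
    field_simp
    rw [← hs]
    have : Real.sqrt L ^ 2 = L := Real.sq_sqrt h2.le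
    ring_nf
    simp only [show Real.sqrt L ^ 2 = L from this]
    ring
  have h3 := mul_lt_mul_of_pos_right h1 h2
  rw [e] at h3
  linarith

section main

variable {G : Type u} {X : Type v} [Group G] [TopologicalSpace X] [CompactSpace X] [MulAction G X]
  [ContinuousConstSMul G X] {ρ : X → X → ℝ}

lemma main_ineq {d : ℕ → ℕ} {σ : (i : ℕ) → G → Equiv.Perm (Fin (d i))} (hσ : IsSofic G d σ)
    (h : IsPseudo ρ) (hgen : Generating G ρ) {z : ℕ → X} (hz : DenseRange z) {p : ℝ≥0∞}
    (h1 : 1 ≤ p) (hp : p ≠ ∞) :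
    mdimP G X d σ ∞ (slow ρ z) ≤ mdimP G X d σ p ρ := by
  classical
  have h' := slow_pseudo h z
  have hgen' : Generating G (slow ρ z) := by
    intro x y hxy
    obtain ⟨s, hs⟩ := hgen x y hxy
    exact ⟨s, slow_pos h hz hs⟩
  obtain ⟨M, hM0, hM⟩ := exists_bound h
  refine EReal.le_of_forall_lt_iff_le.1 ?_
  intro z0 hz0
  obtain ⟨z1, hz1a, hz1b⟩ := EReal.lt_iff_exists_real_btwn.1 hz0
  have hz1b' : z1 < z0 := by exact_mod_cast hz1b
  have hfreq := frequently_lt_of_liminf_lt (by isBoundedDefault) hz1a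
  apply liminf_le_of_frequently_le _ (by isBoundedDefault)
  refine tendsto_theta.frequently ?_
  set C0 : ℝ := |Real.log (4 * M)| with hC0
  set C1 : ℝ := Real.log (4 * M + 1) with hC1
  have hC1' : 0 ≤ C1 := Real.log_nonneg (by linarith)
  have hev : ∀ᶠ ε : ℝ in 𝓝[>] 0, z1 * Real.log (1 / ε) + (18 * Real.sqrt (Real.log (1 / ε)) + 2) ≤
      z0 * (Real.log (1 / ε) - Real.log (Real.log (1 / ε))) :=
    tendsto_L.eventually (asymp z1 z0 hz1b')
  have hev2 : ∀ᶠ ε : ℝ in 𝓝[>] 0, 3 + C0 + C1 ≤ Real.log (1 / ε) :=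
    tendsto_L.eventually (eventually_ge_atTop _)
  refine (hfreq.and_eventually (hev.and (hev2.and self_mem_nhdsWithin))).mono ?_
  rintro ε' ⟨hS, hA, hLarge, hpos⟩
  have hε' : 0 < ε' := hpos
  set L : ℝ := Real.log (1 / ε') with hL
  have hC0' : 0 ≤ C0 := abs_nonneg _
  have hL3 : 3 ≤ L := by linarith
  have hL0 : 0 < L := by linarith
  have hexpL : Real.exp (-L) = ε' := by
    rw [hL, one_div, Real.log_inv, neg_neg, Real.exp_log hε']
  set ε : ℝ := ε' * L with hε_def
  have hε : 0 < ε := mul_pos hε' hL0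
  have hlogε : Real.log (1 / ε) = L - Real.log L := by
    rw [one_div, Real.log_inv, hε_def, Real.log_mul hε'.ne' hL0.ne', hL, one_div, Real.log_inv]
    ring
  have hlogpos : 0 < L - Real.log L := by
    have := Real.log_le_sub_one_of_pos hL0
    linarith
  -- the parameters of the counting lemma
  set lam : ℝ := 3 / L with hlam
  have hlam0 : 0 < lam := by positivity
  have hlam1 : lam ≤ 1 := by rw [hlam, div_le_one hL0]; exact hL3
  have hp1 := toReal_ge_one h1 hp
  have hlamp : (ε' / (ε / 3)) ^ p.toReal ≤ lam := by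
    have e : ε' / (ε / 3) = lam := by rw [hε_def, hlam]; field_simp
    rw [e]
    calc lam ^ p.toReal ≤ lam ^ (1 : ℝ) := Real.rpow_le_rpow_of_exponent_ge hlam0 hlam1 hp1
      _ = lam := Real.rpow_one _
  set K : ℕ := ⌈Real.sqrt (2 * (L + C0))⌉₊ with hKdef
  have hK1 : 2 * (L + C0) ≤ ((K : ℝ) + 1) ^ 2 := by
    have a := Nat.le_ceil (Real.sqrt (2 * (L + C0)))
    rw [← hKdef] at a
    have b := Real.sq_sqrt (show 0 ≤ 2 * (L + C0) by positivity)
    have c := Real.sqrt_nonneg (2 * (L + C0))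
    nlinarith
  have hKc : 2 * (1 / 2) ^ ((K + 1) ^ 2) * M ≤ ε / 2 := by
    have e1 : ((1 : ℝ) / 2) ^ ((K + 1) ^ 2) = Real.exp (-(((K : ℝ) + 1) ^ 2 * Real.log 2)) := by
      rw [← Real.rpow_natCast, Real.rpow_def_of_pos (by norm_num), one_div, Real.log_inv]
      push_cast
      ring_nf
    have e2 : Real.exp (-(((K : ℝ) + 1) ^ 2 * Real.log 2)) ≤ Real.exp (-L - Real.log (4 * M)) := by
      apply Real.exp_le_exp.2
      have hl2 : (1 : ℝ) / 2 ≤ Real.log 2 := by
        have := Real.log_two_gt_d9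
        linarith
      have h5 : L + C0 ≤ ((K : ℝ) + 1) ^ 2 * Real.log 2 := by
        have : ((K : ℝ) + 1) ^ 2 * (1 / 2) ≤ ((K : ℝ) + 1) ^ 2 * Real.log 2 :=
          mul_le_mul_of_nonneg_left hl2 (by positivity)
        linarith
      have h6 : Real.log (4 * M) ≤ C0 := le_abs_self _
      linarith
    rw [e1]
    have e3 : Real.exp (-L - Real.log (4 * M)) = ε' / (4 * M) := by
      rw [Real.exp_sub, hexpL, Real.exp_log (by positivity)]
    rw [e3] at e2
    have e4 : ε' ≤ ε := by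
      rw [hε_def]
      nlinarith
    calc 2 * Real.exp (-(((K : ℝ) + 1) ^ 2 * Real.log 2)) * M ≤ 2 * (ε' / (4 * M)) * M := by
          gcongr
      _ = ε' / 2 := by field_simp; norm_num
      _ ≤ ε / 2 := by linarith
  obtain ⟨N, hN⟩ : ∃ N : ℕ, N = (⌊4 * M / ε⌋₊ + 1) ^ K := ⟨_, rfl⟩
  have hcells := slow_cells h z hM0 hM hε K hKc
  rw [← hN] at hcells
  obtain ⟨cell, hcell⟩ := hcells
  have hN1 : 1 ≤ N := by rw [hN]; exact Nat.one_le_pow _ _ (by omega)
  -- the bound of the error term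
  have hr : lam * Real.log N + lam * Real.log (1 / lam) + lam ≤ 18 * Real.sqrt L + 2 := by
    have b1 : Real.log N ≤ (3 * Real.sqrt L) * (2 * L) := by
      have c1 : Real.log N = K * Real.log ((⌊4 * M / ε⌋₊ : ℝ) + 1) := by
        rw [hN]; push_cast; rw [Real.log_pow]
      have c2 : Real.log ((⌊4 * M / ε⌋₊ : ℝ) + 1) ≤ C1 + L := by
        have c3 : (⌊4 * M / ε⌋₊ : ℝ) + 1 ≤ (4 * M + 1) * Real.exp L := by
          have c4 := Nat.floor_le (show 0 ≤ 4 * M / ε by positivity)
          have c5 : 4 * M / ε ≤ 4 * M * Real.exp L := by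
            have c6 : 1 / ε' = Real.exp L := by rw [← hexpL, Real.exp_neg]; simp
            have c7 : ε' ≤ ε := by rw [hε_def]; nlinarith
            calc 4 * M / ε ≤ 4 * M / ε' := by gcongr
              _ = 4 * M * (1 / ε') := by ring
              _ = _ := by rw [c6]
          have c8 : 1 ≤ Real.exp L := Real.one_le_exp hL0.le
          nlinarith
        calc Real.log ((⌊4 * M / ε⌋₊ : ℝ) + 1) ≤ Real.log ((4 * M + 1) * Real.exp L) :=
              Real.log_le_log (by positivity) c3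
          _ = C1 + L := by rw [Real.log_mul (by positivity) (Real.exp_pos _).ne', Real.log_exp]
      have c9 : (K : ℝ) ≤ 3 * Real.sqrt L := by
        have d1 := (Nat.ceil_lt_add_one (Real.sqrt_nonneg (2 * (L + C0)))).le
        rw [← hKdef] at d1
        have d2 : Real.sqrt (2 * (L + C0)) ≤ 2 * Real.sqrt L := by
          have : Real.sqrt (2 * (L + C0)) ≤ Real.sqrt (2 ^ 2 * L) :=
            Real.sqrt_le_sqrt (by linarith)
          have e22 : Real.sqrt ((2 : ℝ) ^ 2 * L) = 2 * Real.sqrt L := by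
            rw [Real.sqrt_mul (by norm_num) L, Real.sqrt_sq (by norm_num)]
          rwa [e22] at this
        have d3 : 1 ≤ Real.sqrt L := by
          rw [Real.one_le_sqrt]; linarith
        linarith
      rw [c1]
      have c10 : 0 ≤ Real.log ((⌊4 * M / ε⌋₊ : ℝ) + 1) := Real.log_nonneg (by
        have : (0 : ℝ) ≤ (⌊4 * M / ε⌋₊ : ℝ) := Nat.cast_nonneg _
        linarith)
      have c11 : Real.log ((⌊4 * M / ε⌋₊ : ℝ) + 1) ≤ 2 * L := by linarith
      exact mul_le_mul c9 c11 c10 (by positivity)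
    have b2 : lam * Real.log N ≤ 18 * Real.sqrt L := by
      calc lam * Real.log N ≤ lam * ((3 * Real.sqrt L) * (2 * L)) :=
            mul_le_mul_of_nonneg_left b1 hlam0.le
        _ = 18 * Real.sqrt L := by rw [hlam]; field_simp; ring
    have b3 : lam * Real.log (1 / lam) ≤ 1 := by
      have := Real.log_le_self (show 0 ≤ 1 / lam by positivity)
      calc lam * Real.log (1 / lam) ≤ lam * (1 / lam) := mul_le_mul_of_nonneg_left this hlam0.le
        _ = 1 := by field_simp
    linarith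
  -- unfold the hypothesis
  obtain ⟨F, hF⟩ := iInf_lt_iff.1 hS
  obtain ⟨δ, hF⟩ := iInf_lt_iff.1 hF
  obtain ⟨hδ, hF⟩ := iInf_lt_iff.1 hF
  have hFe := eventually_lt_of_limsup_lt hF (by isBoundedDefault)
  obtain ⟨F', δ', hδ', hsub⟩ := map_change hσ h h' hgen' F hδ
  refine (iInf_le_of_le F' (iInf_le_of_le δ' (iInf_le_of_le hδ' ?_)))
  apply limsup_le_of_le (by isBoundedDefault)
  filter_upwards [hFe, hsub, hσ.size.eventually (eventually_gt_atTop 0)] with i hi1 hi2 hi3
  have hdi : (0 : ℝ) < d i := by exact_mod_cast hi3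
  rw [hlogε]
  have hden : (0 : ℝ) < (d i : ℝ) * (L - Real.log L) := mul_pos hdi hlogpos
  rw [EReal.div_le_iff_le_mul (by exact_mod_cast hden) (EReal.coe_ne_top _), ← EReal.coe_mul]
  unfold logN
  refine iSup₂_le fun E hE => ?_
  rw [EReal.coe_le_coe_iff]
  obtain ⟨hEne, hEsub, hEsep⟩ := hE
  obtain ⟨Z, hZE, hZsep, hZcard⟩ := count_sep h' h1 hp hN1 hε hε' hlam0 hlam1 hlamp cell hcell E
    hEsep
  have hZne : Z.Nonempty := by
    rw [Finset.nonempty_iff_ne_empty]
    rintro rfl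
    simp only [Finset.card_empty, Nat.cast_zero, zero_mul] at hZcard
    have : (0 : ℝ) < E.card := by exact_mod_cast hEne.card_pos
    linarith
  have hZpos : (0 : ℝ) < Z.card := by exact_mod_cast hZne.card_pos
  have hlogZ : ((Real.log Z.card : ℝ) : EReal) ≤ logN ε' (MapSet ρ F δ (σ i)) (dp p ρ) := by
    unfold logN
    refine le_iSup₂_of_le (f := fun (E : Finset (Fin (d i) → X)) (_ : E.Nonempty ∧
      (E : Set _) ⊆ MapSet ρ F δ (σ i) ∧ ∀ a ∈ E, ∀ b ∈ E, a ≠ b → ε' ≤ dp p ρ a b) =>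
      ((Real.log E.card : ℝ) : EReal)) Z ⟨hZne, ?_, ?_⟩ le_rfl
    · exact fun φ hφ => hi2 (hEsub (hZE hφ))
    · intro a ha b hb hab
      exact (hZsep a ha b hb hab).trans (dp_mono h' (slow_le h z) h1 hp a b)
  have hdL : (0 : ℝ) < (d i : ℝ) * L := mul_pos hdi hL0
  have hlogZ2 : Real.log Z.card < z1 * ((d i : ℝ) * L) := by
    have h5 : ((Real.log Z.card / ((d i : ℝ) * L) : ℝ) : EReal) < (z1 : EReal) := by
      rw [EReal.coe_div]
      refine lt_of_le_of_lt ?_ hi1
      exact EReal.div_le_div_right_of_nonneg (by exact_mod_cast hdL.le) hlogZ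
    have h6 : Real.log Z.card / ((d i : ℝ) * L) < z1 := by exact_mod_cast h5
    rwa [div_lt_iff₀ hdL] at h6
  have hEpos : (0 : ℝ) < E.card := by exact_mod_cast hEne.card_pos
  have hlogE : Real.log E.card ≤ Real.log Z.card +
      d i * (lam * Real.log N + lam * Real.log (1 / lam) + lam) := by
    calc Real.log E.card ≤ Real.log (Z.card *
        Real.exp (d i * (lam * Real.log N + lam * Real.log (1 / lam) + lam))) :=
          Real.log_le_log hEpos hZcard
      _ = _ := by rw [Real.log_mul hZpos.ne' (Real.exp_pos _).ne', Real.log_exp]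
  have h7 : (d i : ℝ) * (lam * Real.log N + lam * Real.log (1 / lam) + lam) ≤
      d i * (18 * Real.sqrt L + 2) := mul_le_mul_of_nonneg_left hr hdi.le
  have h8 : (d i : ℝ) * (z1 * L + (18 * Real.sqrt L + 2)) ≤ d i * (z0 * (L - Real.log L)) :=
    mul_le_mul_of_nonneg_left hA hdi.le
  calc Real.log E.card ≤ z1 * ((d i : ℝ) * L) + d i * (18 * Real.sqrt L + 2) := by linarith
    _ = (d i : ℝ) * (z1 * L + (18 * Real.sqrt L + 2)) := by ring
    _ ≤ d i * (z0 * (L - Real.log L)) := h8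
    _ = z0 * (d i * (L - Real.log L)) := by ring
    _ ≤ (d i : ℝ) * (L - Real.log L) * z0 := le_of_eq (by ring)

omit [CompactSpace X] [ContinuousConstSMul G X] in
lemma mdimP_le_top (d : ℕ → ℕ) (σ : (i : ℕ) → G → Equiv.Perm (Fin (d i)))
    (h : IsPseudo ρ) {p : ℝ≥0∞} (h1 : 1 ≤ p) (hp : p ≠ ∞) :
    mdimP G X d σ p ρ ≤ mdimP G X d σ ∞ ρ := by
  unfold mdimP
  refine liminf_le_liminf ?_ (by isBoundedDefault) (by isBoundedDefault)
  have h2 : ∀ᶠ ε : ℝ in 𝓝[>] 0, ε < 1 :=
    (eventually_lt_nhds (by norm_num : (0 : ℝ) < 1)).filter_mono nhdsWithin_le_nhds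
  filter_upwards [h2, self_mem_nhdsWithin] with ε hε1 hε2
  have hε2' : (0 : ℝ) < ε := hε2
  refine iInf_mono fun F => iInf_mono fun δ => iInf_mono fun _ => ?_
  refine limsup_le_limsup ?_ (by isBoundedDefault) (by isBoundedDefault)
  filter_upwards with i
  have hlog : 0 ≤ Real.log (1 / ε) := Real.log_nonneg (by
    rw [le_div_iff₀ hε2']; linarith)
  apply EReal.div_le_div_right_of_nonneg
  · exact_mod_cast mul_nonneg (Nat.cast_nonneg (d i)) hlog
  · unfold logN
    refine iSup₂_le fun E hE => ?_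
    refine le_iSup₂_of_le (f := fun (E : Finset (Fin (d i) → X)) (_ : E.Nonempty ∧
      (E : Set _) ⊆ MapSet ρ F δ (σ i) ∧ ∀ a ∈ E, ∀ b ∈ E, a ≠ b → ε ≤ dp ∞ ρ a b) =>
      ((Real.log E.card : ℝ) : EReal)) E ⟨hE.1, hE.2.1, ?_⟩ le_rfl
    intro a ha b hb hab
    exact (hE.2.2 a ha b hb hab).trans (dp_le_top h h1 hp a b)

/-- **Main theorem.** -/
theorem mdimMP_eq [TopologicalSpace.MetrizableSpace X] {d : ℕ → ℕ}
    {σ : (i : ℕ) → G → Equiv.Perm (Fin (d i))} (hσ : IsSofic G d σ) {p : ℝ≥0∞} (h1 : 1 ≤ p)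
    (hp : p ≠ ∞) : mdimMP G X d σ p = mdimMP G X d σ ∞ := by
  apply le_antisymm
  · unfold mdimMP
    exact iInf₂_mono fun ρ hρ => mdimP_le_top d σ hρ.1 h1 hp
  · unfold mdimMP
    refine le_iInf₂ fun ρ hρ => ?_
    rcases isEmpty_or_nonempty X with hX | hX
    · -- the empty space
      refine (iInf₂_le ρ hρ).trans (le_of_eq ?_)
      unfold mdimP
      congr 1
      funext ε
      refine iInf_congr fun F => iInf_congr fun δ => iInf_congr fun _ => ?_
      apply limsup_congr
      filter_upwards [hσ.size.eventually (eventually_gt_atTop 0)] with i hi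
      have hemp : IsEmpty (Fin (d i) → X) := ⟨fun f => hX.elim (f ⟨0, hi⟩)⟩
      have e : ∀ θ : (Fin (d i) → X) → (Fin (d i) → X) → ℝ,
          logN ε (MapSet ρ F δ (σ i)) θ = ⊥ := by
        intro θ
        unfold logN
        rw [iSup_eq_bot]
        intro E
        rw [iSup_eq_bot]
        rintro ⟨⟨a, -⟩, -⟩
        exact hemp.elim a
      rw [e, e]
    · have : TopologicalSpace.SeparableSpace X := by
        let _ := TopologicalSpace.metrizableSpaceMetric X
        infer_instance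
      have hz := TopologicalSpace.denseRange_denseSeq X
      refine (iInf₂_le (slow ρ (TopologicalSpace.denseSeq X)) ⟨slow_pseudo hρ.1 _, ?_⟩).trans
        (main_ineq hσ hρ.1 hρ.2 hz h1 hp)
      intro x y hxy
      obtain ⟨s, hs⟩ := hρ.2 x y hxy
      exact ⟨s, slow_pos hρ.1 hz hs⟩

end main

end Pool.Agent.U605.SoficP
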